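import Pool.Agent.H85Q.Defs

/-!
H85Q (helper85, MP_0f1f76_lc): characters of matrices over `ZMod 2`, degrees, and the estimate for
one block of vectors.
-/

set_option autoImplicit false

namespace Pool.Agent.H85Q

open Finset

lemma zmod2 (x : ZMod 2) : x = 0 ∨ x = 1 := by
  fin_cases x
  · exact Or.inl rfl
  · exact Or.inr rfl

lemma sgn_zero : sgn 0 = 1 := by simp [sgn]

lemma sgn_one : sgn 1 = -1 := by simp [sgn]

lemma sgn_add (x y : ZMod 2) : sgn (x + y) = sgn x * sgn y := by
  rcases zmod2 x with rfl | rfl <;> rcases zmod2 y with rfl | rfl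
  · simp [sgn]
  · simp [sgn]
  · simp [sgn]
  · rw [show (1 : ZMod 2) + 1 = 0 from rfl, sgn_zero, sgn_one]
    norm_num

lemma norm_sgn (x : ZMod 2) : ‖sgn x‖ = 1 := by
  rcases zmod2 x with rfl | rfl <;> simp [sgn]

lemma star_sgn (x : ZMod 2) : star (sgn x) = sgn x := by
  rcases zmod2 x with rfl | rfl <;> simp [sgn]

variable {n : ℕ}

lemma pair_add_left {κ : Type} [Fintype κ] (u u' y : κ → Vec n) :
    pair (u + u') y = pair u y + pair u' y := by
  unfold pair
  simp only [Pi.add_apply, add_mul, sum_add_distrib]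

lemma pair_add_right {κ : Type} [Fintype κ] (u y y' : κ → Vec n) :
    pair u (y + y') = pair u y + pair u y' := by
  unfold pair
  simp only [Pi.add_apply, mul_add, sum_add_distrib]

lemma pair_comm {κ : Type} [Fintype κ] (u y : κ → Vec n) : pair u y = pair y u := by
  unfold pair
  simp only [mul_comm]

/-- orthogonality -/
lemma orth {κ : Type} [Fintype κ] [DecidableEq κ] (y : κ → Vec n) :
    ∑ u : κ → Vec n, sgn (pair u y) = if y = 0 then (Fintype.card (κ → Vec n) : ℂ) else 0 := by
  split_ifs with hy
  · subst hy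
    have : ∀ u : κ → Vec n, sgn (pair u 0) = 1 := by
      intro u
      unfold pair
      simp [sgn]
    simp only [this, sum_const, card_univ, nsmul_eq_mul, mul_one]
  · obtain ⟨j, hj⟩ := Function.ne_iff.1 hy
    obtain ⟨i, hi⟩ := Function.ne_iff.1 hj
    have hi1 : y j i = 1 := (zmod2 _).resolve_left hi
    obtain ⟨e, he⟩ : ∃ e : κ → Vec n, e = Pi.single j (Pi.single i 1) := ⟨_, rfl⟩
    have h1 : pair e y = 1 := by
      unfold pair
      rw [he, sum_eq_single j]
      · rw [Pi.single_eq_same, sum_eq_single i]
        · rw [Pi.single_eq_same, hi1, mul_one]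
        · intro b _ hb
          rw [Pi.single_eq_of_ne hb, zero_mul]
        · intro h
          exact absurd (mem_univ _) h
      · intro b _ hb
        rw [Pi.single_eq_of_ne hb]
        simp
      · intro h
        exact absurd (mem_univ _) h
    have h2 : ∑ u : κ → Vec n, sgn (pair u y) = ∑ u : κ → Vec n, sgn (pair (u + e) y) :=
      (Equiv.sum_comp (Equiv.addRight e) fun u => sgn (pair u y)).symm
    have h3 : ∀ u : κ → Vec n, sgn (pair (u + e) y) = -sgn (pair u y) := by
      intro u
      rw [pair_add_left, sgn_add, h1, sgn_one]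
      ring
    simp only [h3, sum_neg_distrib] at h2
    exact self_eq_neg.1 h2

lemma chi_add (u w M : Mat n) : chi (u + w) M = chi u M * chi w M := by
  unfold chi
  rw [← sgn_add]
  exact congrArg sgn (pair_add_left u w M)

lemma chi_mul (u w : Mat n) : chi u * chi w = chi (u + w) := by
  funext M
  rw [Pi.mul_apply, chi_add]

lemma chi_zero (M : Mat n) : chi 0 M = 1 := by
  unfold chi pair
  simp [sgn]

lemma norm_chi (u M : Mat n) : ‖chi u M‖ = 1 := norm_sgn _

lemma sum_chi (u : Mat n) : ∑ M : Mat n, chi u M =
    if u = 0 then (Fintype.card (Mat n) : ℂ) else 0 := by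
  unfold chi
  have h := orth (κ := Fin n) (y := u)
  simp only [pair_comm] at h
  exact h

lemma wt_add_le (u w : Mat n) : wt (u + w) ≤ wt u + wt w := by
  unfold wt
  refine (card_le_card ?_).trans (card_union_le _ _)
  intro p hp
  rw [mem_union, mem_filter, mem_filter]
  rw [mem_filter] at hp
  by_contra hc
  push Not at hc
  refine hp.2 ?_
  have h1 := hc.1 (mem_univ _)
  have h2 := hc.2 (mem_univ _)
  rw [Pi.add_apply, Pi.add_apply, h1, h2, add_zero]

lemma deg_mono {a b : ℕ} (h : a ≤ b) : DegLE n a ≤ DegLE n b := by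
  refine Submodule.span_mono ?_
  rintro _ ⟨u, hu, rfl⟩
  exact ⟨u, hu.trans h, rfl⟩

lemma deg_mul {a b : ℕ} {f g : Mat n → ℂ} (hf : f ∈ DegLE n a) (hg : g ∈ DegLE n b) :
    f * g ∈ DegLE n (a + b) := by
  have h : DegLE n a * DegLE n b ≤ DegLE n (a + b) := by
    unfold DegLE
    rw [Submodule.span_mul_span]
    refine Submodule.span_le.2 ?_
    rintro _ ⟨_, ⟨u, hu, rfl⟩, _, ⟨w, hw, rfl⟩, rfl⟩
    exact Submodule.subset_span ⟨u + w, (wt_add_le u w).trans (add_le_add hu hw), chi_mul u w⟩
  exact h (Submodule.mul_mem_mul hf hg)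

lemma deg_one : (fun _ => 1 : Mat n → ℂ) ∈ DegLE n 0 := by
  refine Submodule.subset_span ⟨0, ?_, ?_⟩
  · unfold wt
    simp
  · funext M
    rw [chi_zero]

lemma deg_const (c : ℂ) (k : ℕ) : (fun _ => c : Mat n → ℂ) ∈ DegLE n k := by
  have h := (DegLE n 0).smul_mem c deg_one
  have e : (c • (fun _ => 1 : Mat n → ℂ)) = fun _ => c := by
    funext M
    simp
  rw [e] at h
  exact deg_mono (Nat.zero_le k) h

lemma deg_star {k : ℕ} {f : Mat n → ℂ} (hf : f ∈ DegLE n k) :
    (fun M => star (f M)) ∈ DegLE n k := by
  induction hf using Submodule.span_induction with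
  | mem f h =>
    obtain ⟨u, hu, rfl⟩ := h
    refine Submodule.subset_span ⟨u, hu, ?_⟩
    funext M
    exact star_sgn _
  | zero =>
    have e : (fun M : Mat n => star ((0 : Mat n → ℂ) M)) = 0 := by
      funext M
      simp
    rw [e]
    exact Submodule.zero_mem _
  | add f g _ _ h1 h2 =>
    have e : (fun M : Mat n => star ((f + g) M)) =
        (fun M => star (f M)) + fun M => star (g M) := by
      funext M
      simp
    rw [e]
    exact Submodule.add_mem _ h1 h2
  | smul c f _ h1 =>
    have e : (fun M : Mat n => star ((c • f) M)) = star c • fun M => star (f M) := by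
      funext M
      simp
    rw [e]
    exact Submodule.smul_mem _ _ h1

/-- Fourier inversion -/
lemma fourier (f : Mat n → ℂ) (M : Mat n) :
    (Fintype.card (Mat n) : ℂ) * f M = ∑ u : Mat n, (∑ N : Mat n, f N * chi u N) * chi u M := by
  have h1 : ∀ N : Mat n, ∑ u : Mat n, chi u N * chi u M =
      if N = M then (Fintype.card (Mat n) : ℂ) else 0 := by
    intro N
    have h2 : ∀ u : Mat n, chi u N * chi u M = sgn (pair u (N + M)) := by
      intro u
      unfold chi
      rw [← sgn_add]
      exact congrArg sgn (pair_add_right u N M).symm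
    simp only [h2]
    rw [orth (κ := Fin n) (y := N + M)]
    have h3 : N + M = 0 ↔ N = M := by
      constructor
      · intro h
        funext i j
        have h4 := congrFun (congrFun h i) j
        have h5 : N i j + M i j = 0 := h4
        rcases zmod2 (N i j) with h | h <;> rcases zmod2 (M i j) with h' | h' <;>
          rw [h, h'] at h5 ⊢
        · exact absurd h5 (by decide)
        · exact absurd h5 (by decide)
      · rintro rfl
        funext i j
        show N i j + N i j = 0
        rcases zmod2 (N i j) with h | h <;> rw [h] <;> rfl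
    by_cases h : N = M
    · rw [if_pos h, if_pos (h3.2 h)]
    · rw [if_neg h, if_neg fun h' => h (h3.1 h')]
  have h2 : ∑ u : Mat n, (∑ N : Mat n, f N * chi u N) * chi u M =
      ∑ N : Mat n, f N * ∑ u : Mat n, chi u N * chi u M := by
    simp only [sum_mul, mul_sum]
    rw [sum_comm]
    refine sum_congr rfl fun N _ => sum_congr rfl fun u _ => ?_
    ring
  rw [h2]
  simp only [h1, mul_ite, mul_zero, sum_ite_eq', mem_univ, if_true]
  ring

/-- a function which depends on at most `d` entries of the matrix has degree at most `d` -/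
lemma deg_of_depends {f : Mat n → ℂ} {d : ℕ} (R : Finset (Fin n × Fin n)) (hR : R.card ≤ d)
    (h : ∀ M N : Mat n, (∀ p ∈ R, M p.1 p.2 = N p.1 p.2) → f M = f N) : f ∈ DegLE n d := by
  have hc : (Fintype.card (Mat n) : ℂ) ≠ 0 := by
    exact_mod_cast Fintype.card_ne_zero
  have h1 : ∀ u : Mat n, ¬ wt u ≤ d → ∑ N : Mat n, f N * chi u N = 0 := by
    intro u hu
    obtain ⟨p, hp, hpR⟩ : ∃ p ∈ univ.filter (fun p : Fin n × Fin n => u p.1 p.2 ≠ 0), p ∉ R := by
      by_contra hc
      push Not at hc
      exact hu ((card_le_card hc).trans hR)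
    have hup : u p.1 p.2 = 1 := (zmod2 _).resolve_left (mem_filter.1 hp).2
    obtain ⟨e, he⟩ : ∃ e : Mat n, e = Pi.single p.1 (Pi.single p.2 1) := ⟨_, rfl⟩
    have h2 : pair u e = 1 := by
      unfold pair
      rw [he, sum_eq_single p.1]
      · rw [sum_eq_single p.2]
        · rw [Pi.single_eq_same, Pi.single_eq_same, hup, mul_one]
        · intro b _ hb
          rw [Pi.single_eq_same, Pi.single_eq_of_ne hb, mul_zero]
        · intro h
          exact absurd (mem_univ _) h
      · intro b _ hb
        rw [Pi.single_eq_of_ne hb]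
        simp
      · intro h
        exact absurd (mem_univ _) h
    have h3 : ∑ N : Mat n, f N * chi u N = ∑ N : Mat n, f (N + e) * chi u (N + e) :=
      (Equiv.sum_comp (Equiv.addRight e) fun N => f N * chi u N).symm
    have h4 : ∀ N : Mat n, f (N + e) * chi u (N + e) = -(f N * chi u N) := by
      intro N
      have h5 : f (N + e) = f N := by
        refine h _ _ fun q hq => ?_
        have hqp : ¬(p.1 = q.1 ∧ p.2 = q.2) := by
          rintro ⟨h6, h7⟩
          exact hpR (by rwa [show p = q from Prod.ext h6 h7])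
        rw [Pi.add_apply, Pi.add_apply, he]
        have h8 : (Pi.single p.1 (Pi.single p.2 1) : Mat n) q.1 q.2 = 0 := by
          by_cases h9 : q.1 = p.1
          · rw [h9, Pi.single_eq_same, Pi.single_eq_of_ne]
            exact fun h10 => hqp ⟨h9.symm, h10.symm⟩
          · rw [Pi.single_eq_of_ne h9]
            rfl
        rw [h8, add_zero]
      have h6 : chi u (N + e) = -chi u N := by
        unfold chi
        have h7 : pair u (N + e) = pair u N + pair u e := pair_add_right u N e
        rw [h7, sgn_add, h2, sgn_one]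
        ring
      rw [h5, h6]
      ring
    simp only [h4, sum_neg_distrib] at h3
    exact self_eq_neg.1 h3
  have h2 : f = ∑ u : Mat n, ((Fintype.card (Mat n) : ℂ)⁻¹ * ∑ N : Mat n, f N * chi u N) •
      chi u := by
    funext M
    rw [Finset.sum_apply]
    have h3 := fourier f M
    simp only [Pi.smul_apply, smul_eq_mul]
    have h4 : f M = (Fintype.card (Mat n) : ℂ)⁻¹ *
        ∑ u : Mat n, (∑ N : Mat n, f N * chi u N) * chi u M := by
      rw [← h3, ← mul_assoc, inv_mul_cancel₀ hc, one_mul]
    rw [h4, mul_sum]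
    refine sum_congr rfl fun u _ => ?_
    ring
  rw [h2]
  refine Submodule.sum_mem _ fun u _ => ?_
  by_cases hu : wt u ≤ d
  · exact Submodule.smul_mem _ _ (Submodule.subset_span ⟨u, hu, rfl⟩)
  · rw [h1 u hu, mul_zero, zero_smul]
    exact Submodule.zero_mem _

/-- functions of low degree are orthogonal to the characters of high weight -/
lemma deg_orth {k : ℕ} {f : Mat n → ℂ} (hf : f ∈ DegLE n k) {u : Mat n} (hu : k < wt u) :
    ∑ M : Mat n, chi u M * f M = 0 := by
  induction hf using Submodule.span_induction with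
  | mem f h =>
    obtain ⟨w, hw, rfl⟩ := h
    simp only [← chi_add]
    rw [sum_chi, if_neg]
    intro h0
    have h1 : u = w := by
      funext i j
      have h4 : (u + w) i j = 0 := by rw [h0]; rfl
      rw [Pi.add_apply, Pi.add_apply] at h4
      rcases zmod2 (u i j) with h | h <;> rcases zmod2 (w i j) with h' | h' <;>
        rw [h, h'] at h4 ⊢
      · exact absurd h4 (by decide)
      · exact absurd h4 (by decide)
    subst h1
    omega
  | zero => simp
  | add f g _ _ h1 h2 =>
    simp only [Pi.add_apply, mul_add, sum_add_distrib, h1, h2, add_zero]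
  | smul c f _ h1 =>
    simp only [Pi.smul_apply, smul_eq_mul]
    have e : ∀ M : Mat n, chi u M * (c * f M) = c * (chi u M * f M) := fun M => by ring
    simp only [e, ← mul_sum, h1, mul_zero]

/-! ### The estimate for one block -/

/-- `∑_j u_j ⊗ w_j` -/
def tens {κ : Type} [Fintype κ] (u w : κ → Vec n) : Mat n := fun i c => ∑ j, u j i * w j c

lemma pair_tens {κ : Type} [Fintype κ] (u w : κ → Vec n) (M : Mat n) :
    pair (tens u w) M = pair u fun j => mv M (w j) := by
  unfold pair tens mv
  simp only [sum_mul, mul_sum]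
  have h1 : ∀ i : Fin n, ∑ c : Fin n, ∑ j : κ, u j i * w j c * M i c =
      ∑ j : κ, ∑ c : Fin n, u j i * w j c * M i c := fun i => sum_comm
  simp only [h1]
  rw [sum_comm]
  refine sum_congr rfl fun j _ => sum_congr rfl fun i _ => sum_congr rfl fun c _ => ?_
  ring

/-- the indicator of `M w_j = z_j` for all `j` -/
lemma indicator {κ : Type} [Fintype κ] [DecidableEq κ] (w z : κ → Vec n) (M : Mat n) :
    ∑ u : κ → Vec n, sgn (pair u z) * chi (tens u w) M =
      if (fun j => mv M (w j)) = z then (Fintype.card (κ → Vec n) : ℂ) else 0 := by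
  have h1 : ∀ u : κ → Vec n, sgn (pair u z) * chi (tens u w) M =
      sgn (pair u (z + fun j => mv M (w j))) := by
    intro u
    unfold chi
    rw [pair_add_right, sgn_add, pair_tens]
  simp only [h1]
  rw [orth]
  have h3 : z + (fun j => mv M (w j)) = 0 ↔ (fun j => mv M (w j)) = z := by
    constructor
    · intro h
      funext j i
      have h5 : z j i + (mv M (w j)) i = 0 := congrFun (congrFun h j) i
      rcases zmod2 (z j i) with h | h <;> rcases zmod2 ((mv M (w j)) i) with h' | h' <;>
        rw [h, h'] at h5 ⊢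
      · exact absurd h5 (by decide)
      · exact absurd h5 (by decide)
    · intro h
      rw [h]
      funext j i
      show z j i + z j i = 0
      rcases zmod2 (z j i) with h | h <;> rw [h] <;> rfl
  by_cases h : (fun j => mv M (w j)) = z
  · rw [if_pos h, if_pos (h3.2 h)]
  · rw [if_neg h, if_neg fun h' => h (h3.1 h')]

/-- the weight of a vector -/
def hwt (x : Vec n) : ℕ := (univ.filter fun i => x i ≠ 0).card

/-- the rows on which a family of vectors does not vanish -/
def rows {κ : Type} [Fintype κ] (u : κ → Vec n) : Finset (Fin n) :=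
  univ.filter fun i => ∃ j, u j i ≠ 0

open Classical in
lemma card_few (κ : Type) [Fintype κ] [DecidableEq κ] {m : ℕ} (hκ : Fintype.card κ = 2 * m) :
    (univ.filter fun u : κ → Vec n => 2 * (rows u).card ≤ n).card ≤ 2 ^ n * 2 ^ (m * n) := by
  have h1 : (univ.filter fun u : κ → Vec n => 2 * (rows u).card ≤ n) ⊆
      (univ.filter fun R : Finset (Fin n) => 2 * R.card ≤ n).biUnion fun R =>
        Fintype.piFinset fun _ : κ => Fintype.piFinset fun i : Fin n =>
          if i ∈ R then (univ : Finset (ZMod 2)) else {0} := by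
    intro u hu
    rw [mem_biUnion]
    refine ⟨rows u, ?_, ?_⟩
    · rw [mem_filter]
      exact ⟨mem_univ _, (mem_filter.1 hu).2⟩
    · rw [Fintype.mem_piFinset]
      intro j
      rw [Fintype.mem_piFinset]
      intro i
      split_ifs with hi
      · exact mem_univ _
      · rw [mem_singleton]
        by_contra hne
        exact hi (mem_filter.2 ⟨mem_univ _, j, hne⟩)
  refine (card_le_card h1).trans (card_biUnion_le.trans ?_)
  have h2 : ∀ R ∈ (univ.filter fun R : Finset (Fin n) => 2 * R.card ≤ n),
      (Fintype.piFinset fun _ : κ => Fintype.piFinset fun i : Fin n =>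
          if i ∈ R then (univ : Finset (ZMod 2)) else {0}).card ≤ 2 ^ (m * n) := by
    intro R hR
    rw [Fintype.card_piFinset, prod_const, card_univ, hκ, Fintype.card_piFinset]
    have h3 : ∏ i : Fin n, (if i ∈ R then (univ : Finset (ZMod 2)) else {0}).card =
        2 ^ R.card := by
      have h4 : ∀ i : Fin n, (if i ∈ R then (univ : Finset (ZMod 2)) else {0}).card =
          if i ∈ R then 2 else 1 := by
        intro i
        split_ifs
        · rfl
        · rfl
      simp only [h4, prod_ite_mem, univ_inter, prod_const]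
    rw [h3, ← pow_mul]
    refine Nat.pow_le_pow_right (by norm_num) ?_
    have h5 := (mem_filter.1 hR).2
    nlinarith
  refine (sum_le_sum h2).trans ?_
  rw [sum_const, smul_eq_mul]
  refine Nat.mul_le_mul_right _ ?_
  refine (card_le_univ _).trans ?_
  simp

lemma wt_ge (A : Mat n) (R : Finset (Fin n)) (h : ∀ i ∈ R, n ≤ 16 * hwt (A i)) :
    n * R.card ≤ 16 * wt A := by
  have h1 : ∑ i ∈ R, hwt (A i) ≤ wt A := by
    have h2 : wt A = ∑ i : Fin n, hwt (A i) := by
      unfold wt hwt
      rw [card_filter, ← univ_product_univ, sum_product]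
      refine sum_congr rfl fun i _ => ?_
      rw [card_filter]
    rw [h2]
    exact sum_le_sum_of_subset (subset_univ R)
  calc n * R.card = ∑ i ∈ R, n := by rw [sum_const, smul_eq_mul, mul_comm]
    _ ≤ ∑ i ∈ R, 16 * hwt (A i) := sum_le_sum h
    _ = 16 * ∑ i ∈ R, hwt (A i) := by rw [mul_sum]
    _ ≤ _ := Nat.mul_le_mul_left _ h1

open Classical in
/-- **The estimate for one block.** -/
theorem block_bound {ι κ : Type} [Fintype ι] [DecidableEq ι] [Fintype κ] [DecidableEq κ]
    (v : ι → Vec n) (w : κ → Vec n)
    (hcode : ∀ (a : ι → ZMod 2) (b : κ → ZMod 2), b ≠ 0 →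
      n ≤ 16 * hwt (fun c => ∑ j, a j * v j c + ∑ j, b j * w j c))
    {k m : ℕ} (hκ : Fintype.card κ = 2 * m) (hk : 32 * k ≤ n * n) (f : Mat n → ℝ)
    (hf0 : ∀ M, 0 ≤ f M) (hf : (fun M => (f M : ℂ)) ∈ DegLE n k) (x : ι → Vec n)
    (z : κ → Vec n) :
    ∑ M : Mat n, (if (fun j => mv M (v j)) = x ∧ (fun j => mv M (w j)) = z
      then f M else 0) ≤
      2 ^ n / 2 ^ (m * n) * ∑ M : Mat n, (if (fun j => mv M (v j)) = x then f M else 0) := by
  obtain ⟨P, hP⟩ : ∃ P : Mat n → ℝ, P = fun M => if (fun j => mv M (v j)) = x then f M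
    else 0 := ⟨_, rfl⟩
  have hP0 : ∀ M, 0 ≤ P M := by
    intro M
    rw [hP]
    dsimp only
    split_ifs
    · exact hf0 M
    · exact le_rfl
  obtain ⟨T, hT⟩ : ∃ T : (κ → Vec n) → ℂ, T = fun u => ∑ M : Mat n, chi (tens u w) M * P M :=
    ⟨_, rfl⟩
  have hTle : ∀ u, ‖T u‖ ≤ ∑ M, P M := by
    intro u
    rw [hT]
    refine (norm_sum_le _ _).trans (le_of_eq ?_)
    refine sum_congr rfl fun M _ => ?_
    rw [norm_mul, norm_chi, one_mul, Complex.norm_real, Real.norm_of_nonneg (hP0 M)]
  have hT0 : ∀ u : κ → Vec n, ¬ 2 * (rows u).card ≤ n → T u = 0 := by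
    intro u hu
    have hc : (Fintype.card (ι → Vec n) : ℂ) ≠ 0 := by exact_mod_cast Fintype.card_ne_zero
    have h1 : (Fintype.card (ι → Vec n) : ℂ) * T u = ∑ u' : ι → Vec n, sgn (pair u' x) *
        ∑ M : Mat n, chi (tens u' v + tens u w) M * (f M : ℂ) := by
      rw [hT]
      dsimp only
      rw [mul_sum]
      have h2 : ∀ M : Mat n, (Fintype.card (ι → Vec n) : ℂ) * (chi (tens u w) M * (P M : ℂ)) =
          ∑ u' : ι → Vec n, sgn (pair u' x) * (chi (tens u' v + tens u w) M * (f M : ℂ)) := by
        intro M
        have h3 := indicator v x M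
        have h4 : (Fintype.card (ι → Vec n) : ℂ) * (P M : ℂ) =
            (∑ u' : ι → Vec n, sgn (pair u' x) * chi (tens u' v) M) * (f M : ℂ) := by
          rw [h3, hP]
          dsimp only
          split_ifs <;> simp
        calc (Fintype.card (ι → Vec n) : ℂ) * (chi (tens u w) M * (P M : ℂ))
            = chi (tens u w) M * ((Fintype.card (ι → Vec n) : ℂ) * (P M : ℂ)) := by ring
          _ = _ := by
            rw [h4, sum_mul, mul_sum]
            refine sum_congr rfl fun u' _ => ?_
            rw [chi_add]
            ring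
      simp only [h2]
      rw [sum_comm]
      refine sum_congr rfl fun u' _ => ?_
      rw [mul_sum]
    have h2 : ∀ u' : ι → Vec n, ∑ M : Mat n, chi (tens u' v + tens u w) M * (f M : ℂ) = 0 := by
      intro u'
      refine deg_orth hf ?_
      have h3 := wt_ge (tens u' v + tens u w) (rows u) (by
        intro i hi
        obtain ⟨j, hj⟩ := (mem_filter.1 hi).2
        have h4 := hcode (fun j => u' j i) (fun j => u j i) (fun h => hj (congrFun h j))
        refine h4.trans (le_of_eq ?_)
        rfl)
      rw [not_le] at hu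
      have h5 : n * (n + 1) ≤ 2 * (n * (rows u).card) := by nlinarith
      have hn : 0 < n := by
        rcases Nat.eq_zero_or_pos n with h | h
        · subst h
          have := (rows u).card_le_univ
          simp at this
          simp [this] at hu
        · exact h
      nlinarith
    simp only [h2, mul_zero, sum_const_zero] at h1
    exact (mul_eq_zero.1 h1).resolve_left hc
  have hmain : ((Fintype.card (κ → Vec n) : ℝ) * ∑ M : Mat n,
      (if (fun j => mv M (v j)) = x ∧ (fun j => mv M (w j)) = z then f M else 0) : ℝ) ≤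
      (univ.filter fun u : κ → Vec n => 2 * (rows u).card ≤ n).card * ∑ M, P M := by
    have h1 : (((Fintype.card (κ → Vec n) : ℝ) * ∑ M : Mat n,
        (if (fun j => mv M (v j)) = x ∧ (fun j => mv M (w j)) = z
          then f M else 0) : ℝ) : ℂ) = ∑ u : κ → Vec n, sgn (pair u z) * T u := by
      have h2 : ∀ M : Mat n, (Fintype.card (κ → Vec n) : ℂ) *
          ((if (fun j => mv M (v j)) = x ∧ (fun j => mv M (w j)) = z
            then f M else 0 : ℝ) : ℂ) =
          ∑ u : κ → Vec n, sgn (pair u z) * (chi (tens u w) M * (P M : ℂ)) := by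
        intro M
        have h3 := indicator w z M
        calc (Fintype.card (κ → Vec n) : ℂ) *
            ((if (fun j => mv M (v j)) = x ∧ (fun j => mv M (w j)) = z
              then f M else 0 : ℝ) : ℂ)
            = (if (fun j => mv M (w j)) = z then (Fintype.card (κ → Vec n) : ℂ) else 0) *
              (P M : ℂ) := by
              rw [hP]
              dsimp only
              by_cases ha : (fun j => mv M (v j)) = x
              · by_cases hb : (fun j => mv M (w j)) = z
                · rw [if_pos ⟨ha, hb⟩, if_pos hb, if_pos ha]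
                · rw [if_neg (fun h => hb h.2), if_neg hb]
                  simp
              · rw [if_neg (fun h => ha h.1), if_neg ha]
                simp
          _ = _ := by
              rw [← h3, sum_mul]
              refine sum_congr rfl fun u _ => ?_
              ring
      push_cast
      rw [mul_sum]
      simp only [h2]
      rw [sum_comm]
      refine sum_congr rfl fun u _ => ?_
      rw [hT]
      dsimp only
      rw [mul_sum]
    have h5 : ‖∑ u : κ → Vec n, sgn (pair u z) * T u‖ ≤
        (univ.filter fun u : κ → Vec n => 2 * (rows u).card ≤ n).card * ∑ M, P M := by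
      have h6 : ∑ u : κ → Vec n, sgn (pair u z) * T u =
          ∑ u ∈ univ.filter (fun u : κ → Vec n => 2 * (rows u).card ≤ n),
            sgn (pair u z) * T u := by
        rw [sum_filter]
        refine sum_congr rfl fun u _ => ?_
        split_ifs with h
        · rfl
        · rw [hT0 u h, mul_zero]
      rw [h6]
      refine (norm_sum_le _ _).trans ?_
      have h7 : ∀ u ∈ univ.filter (fun u : κ → Vec n => 2 * (rows u).card ≤ n),
          ‖sgn (pair u z) * T u‖ ≤ ∑ M, P M := by
        intro u _
        rw [norm_mul, norm_sgn, one_mul]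
        exact hTle u
      refine (sum_le_sum h7).trans (le_of_eq ?_)
      rw [sum_const, nsmul_eq_mul]
    refine le_trans ?_ h5
    rw [← h1, Complex.norm_real]
    exact le_abs_self _
  have hcard : (Fintype.card (κ → Vec n) : ℝ) = 2 ^ (m * n) * 2 ^ (m * n) := by
    rw [Fintype.card_fun, Fintype.card_fun, ZMod.card, Fintype.card_fin, hκ]
    push_cast
    rw [← pow_mul, ← pow_add]
    congr 1
    ring
  have hS0 : 0 ≤ ∑ M, P M := sum_nonneg fun M _ => hP0 M
  have hfew := card_few (n := n) κ hκ
  have hfew' : ((univ.filter fun u : κ → Vec n => 2 * (rows u).card ≤ n).card : ℝ) ≤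
      2 ^ n * 2 ^ (m * n) := by exact_mod_cast hfew
  have h8 := hmain.trans (mul_le_mul_of_nonneg_right hfew' hS0)
  rw [hcard] at h8
  have h9 : (0 : ℝ) < 2 ^ (m * n) := by positivity
  have h10 : (2 : ℝ) ^ (m * n) * ∑ M : Mat n,
      (if (fun j => mv M (v j)) = x ∧ (fun j => mv M (w j)) = z then f M else 0) ≤
      2 ^ n * ∑ M, P M := by
    refine le_of_mul_le_mul_left ?_ h9
    calc _ = 2 ^ (m * n) * 2 ^ (m * n) * ∑ M : Mat n,
          (if (fun j => mv M (v j)) = x ∧ (fun j => mv M (w j)) = z
            then f M else 0) := by ring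
      _ ≤ _ := h8
      _ = _ := by ring
  have h11 : ∑ M, P M = ∑ M : Mat n, (if (fun j => mv M (v j)) = x then f M else 0) := by
    rw [hP]
  rw [← h11, div_mul_eq_mul_div, le_div_iff₀ h9]
  linarith

end Pool.Agent.H85Q
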