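import Pool.Agent.H85Q.Model

/-!
H85Q (helper85, MP_0f1f76_lc): the spans of random vectors are good codes; the estimate for one
block of an algorithm.
-/

set_option autoImplicit false

namespace Pool.Agent.H85Q

open Finset

variable {n d : ℕ}

/-- the combination of the first `l` vectors with the coefficients `c` -/
def comb {l : ℕ} (hl : l ≤ n) (c : Fin l → ZMod 2) (v : Fin n → Vec n) : Vec n :=
  fun x => ∑ j, c j * v (Fin.castLE hl j) x

/-- the first `l` vectors are linearly independent and their span has minimum distance at least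
`n / 16` -/
def Good {l : ℕ} (hl : l ≤ n) (v : Fin n → Vec n) : Prop :=
  ∀ c : Fin l → ZMod 2, c ≠ 0 → n ≤ 16 * hwt (comb hl c v)

lemma low_count (n : ℕ) : ((univ.filter fun x : Vec n => 16 * hwt x < n).card : ℝ) ≤
    (2 : ℝ) ^ ((7 / 16 : ℝ) * n) := by
  have h1 : ∀ x : Vec n, (1 / 8 : ℝ) ^ hwt x = ∏ i, if x i ≠ 0 then (1 / 8 : ℝ) else 1 := by
    intro x
    rw [prod_ite, prod_const_one, mul_one, prod_const]
    rfl
  have h2 : ∑ x : Vec n, (1 / 8 : ℝ) ^ hwt x = (9 / 8) ^ n := by
    simp only [h1]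
    have h3 := Fintype.sum_pow (fun t : ZMod 2 => if t ≠ 0 then (1 / 8 : ℝ) else 1) n
    rw [← h3]
    congr 1
    have h4 : (univ : Finset (ZMod 2)) = {0, 1} := by decide
    rw [h4, sum_insert (by decide), sum_singleton]
    norm_num
  have h3 : ((univ.filter fun x : Vec n => 16 * hwt x < n).card : ℝ) ≤
      ∑ x : Vec n, (2 : ℝ) ^ ((3 / 16 : ℝ) * n) * (1 / 8 : ℝ) ^ hwt x := by
    rw [card_eq_sum_ones, sum_filter]
    push_cast
    refine sum_le_sum fun x _ => ?_
    have h5 : (2 : ℝ) ^ ((3 / 16 : ℝ) * n) * (1 / 8 : ℝ) ^ hwt x =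
        (2 : ℝ) ^ ((3 / 16 : ℝ) * n - 3 * hwt x) := by
      have h6 : (1 / 8 : ℝ) ^ hwt x = (2 : ℝ) ^ (-(3 * hwt x : ℝ)) := by
        rw [Real.rpow_neg (by norm_num), ← inv_eq_one_div, inv_pow]
        congr 1
        have h7 : (3 * hwt x : ℝ) = ((3 * hwt x : ℕ) : ℝ) := by push_cast; ring
        rw [h7, Real.rpow_natCast, pow_mul]
        norm_num
      rw [h6, ← Real.rpow_add (by norm_num)]
      congr 1
    rw [h5]
    split_ifs with h
    · have h6 : (16 * hwt x : ℝ) ≤ n := by exact_mod_cast h.le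
      exact Real.one_le_rpow (by norm_num) (by linarith)
    · exact Real.rpow_nonneg (by norm_num) _
  rw [← mul_sum, h2] at h3
  refine h3.trans ?_
  have h4 : (9 / 8 : ℝ) ≤ (2 : ℝ) ^ (1 / 4 : ℝ) := by
    have h5 : (9 / 8 : ℝ) = ((9 / 8 : ℝ) ^ (4 : ℕ)) ^ (1 / 4 : ℝ) := by
      rw [← Real.rpow_natCast, ← Real.rpow_mul (by norm_num)]
      norm_num
    rw [h5]
    exact Real.rpow_le_rpow (by norm_num) (by norm_num) (by norm_num)
  have h5 : (9 / 8 : ℝ) ^ n ≤ (2 : ℝ) ^ ((1 / 4 : ℝ) * n) := by
    rw [Real.rpow_mul (by norm_num), Real.rpow_natCast]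
    exact pow_le_pow_left₀ (by norm_num) h4 n
  calc (2 : ℝ) ^ ((3 / 16 : ℝ) * n) * (9 / 8) ^ n
      ≤ (2 : ℝ) ^ ((3 / 16 : ℝ) * n) * (2 : ℝ) ^ ((1 / 4 : ℝ) * n) :=
        mul_le_mul_of_nonneg_left h5 (Real.rpow_nonneg (by norm_num) _)
    _ = _ := by
        rw [← Real.rpow_add (by norm_num)]
        congr 1
        ring

open Classical in
lemma shift_count {l : ℕ} (hl : l ≤ n) {c : Fin l → ZMod 2} (hc : c ≠ 0) (X : Finset (Vec n)) :
    2 ^ n * (univ.filter fun v : Fin n → Vec n => comb hl c v ∈ X).card =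
      X.card * Fintype.card (Fin n → Vec n) := by
  obtain ⟨j, hj⟩ := Function.ne_iff.1 hc
  have hj1 : c j = 1 := (zmod2 _).resolve_left hj
  obtain ⟨sg, hsg⟩ : ∃ sg : Vec n → (Fin n → Vec n),
      ∀ y, sg y = (Pi.single (Fin.castLE hl j) y : Fin n → Vec n) :=
    ⟨fun y => (Pi.single (Fin.castLE hl j) y : Fin n → Vec n), fun _ => rfl⟩
  have h1 : ∀ (y : Vec n) (v : Fin n → Vec n), comb hl c (v + sg y) = comb hl c v + y := by
    intro y v
    funext x
    unfold comb
    rw [Pi.add_apply]
    have h2 : ∀ i : Fin l, c i * (v + sg y) (Fin.castLE hl i) x =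
        c i * v (Fin.castLE hl i) x + if i = j then y x else 0 := by
      intro i
      rw [Pi.add_apply, Pi.add_apply, hsg]
      by_cases hi : i = j
      · subst hi
        rw [Pi.single_eq_same, hj1, if_pos rfl]
        ring
      · have h3 : Fin.castLE hl i ≠ Fin.castLE hl j := fun h => hi (Fin.castLE_injective hl h)
        rw [Pi.single_eq_of_ne h3, if_neg hi]
        simp
    simp only [h2, sum_add_distrib, sum_ite_eq', mem_univ, if_true]
  have h2 : ∀ y : Vec n, (univ.filter fun v : Fin n → Vec n => comb hl c v + y ∈ X).card =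
      (univ.filter fun v : Fin n → Vec n => comb hl c v ∈ X).card := by
    intro y
    refine card_bij' (fun v _ => v + sg y) (fun v _ => v - sg y) ?_ ?_ ?_ ?_
    · intro v hv
      rw [mem_filter] at hv ⊢
      refine ⟨mem_univ _, ?_⟩
      rw [h1]
      exact hv.2
    · intro v hv
      rw [mem_filter] at hv ⊢
      refine ⟨mem_univ _, ?_⟩
      have := h1 y (v - sg y)
      rw [sub_add_cancel] at this
      rw [← this]
      exact hv.2
    · intro v _
      exact add_sub_cancel_right _ _
    · intro v _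
      exact sub_add_cancel _ _
  have h3 : ∑ y : Vec n, (univ.filter fun v : Fin n → Vec n => comb hl c v + y ∈ X).card =
      X.card * Fintype.card (Fin n → Vec n) := by
    simp only [card_filter]
    rw [sum_comm]
    have h4 : ∀ v : Fin n → Vec n, ∑ y : Vec n, (if comb hl c v + y ∈ X then 1 else 0) =
        X.card := by
      intro v
      rw [← card_filter]
      refine card_bij' (fun y _ => comb hl c v + y) (fun y _ => y - comb hl c v) ?_ ?_ ?_ ?_
      · intro y hy
        exact (mem_filter.1 hy).2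
      · intro y hy
        rw [mem_filter]
        refine ⟨mem_univ _, ?_⟩
        rwa [add_sub_cancel]
      · intro y _
        exact add_sub_cancel_left _ _
      · intro y _
        exact add_sub_cancel _ _
    simp only [h4, sum_const, card_univ, smul_eq_mul]
    ring
  rw [← h3]
  simp only [h2, sum_const, card_univ, smul_eq_mul]
  congr 1
  simp

open Classical in
lemma bad_count {l : ℕ} (hl : l ≤ n) (hl4 : 4 * l ≤ n) :
    ((univ.filter fun v : Fin n → Vec n => ¬ Good hl v).card : ℝ) ≤
      (2 : ℝ) ^ (-(5 / 16 : ℝ) * n) * Fintype.card (Fin n → Vec n) := by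
  have h1 : (univ.filter fun v : Fin n → Vec n => ¬ Good hl v) ⊆
      (univ.filter fun c : Fin l → ZMod 2 => c ≠ 0).biUnion fun c =>
        univ.filter fun v : Fin n → Vec n =>
          comb hl c v ∈ univ.filter fun x : Vec n => 16 * hwt x < n := by
    intro v hv
    have h2 := (mem_filter.1 hv).2
    unfold Good at h2
    push Not at h2
    obtain ⟨c, hc, h3⟩ := h2
    rw [mem_biUnion]
    exact ⟨c, mem_filter.2 ⟨mem_univ _, hc⟩, mem_filter.2 ⟨mem_univ _,
      mem_filter.2 ⟨mem_univ _, h3⟩⟩⟩
  obtain ⟨L, hL⟩ : ∃ L : Finset (Vec n), L = univ.filter fun x : Vec n => 16 * hwt x < n :=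
    ⟨_, rfl⟩
  rw [← hL] at h1
  have hLc : (L.card : ℝ) ≤ (2 : ℝ) ^ ((7 / 16 : ℝ) * n) := by
    rw [hL]
    exact low_count n
  obtain ⟨Nv, hNv⟩ : ∃ Nv : ℝ, Nv = Fintype.card (Fin n → Vec n) := ⟨_, rfl⟩
  have hNv0 : 0 ≤ Nv := by rw [hNv]; positivity
  have h2 : ∀ c ∈ (univ.filter fun c : Fin l → ZMod 2 => c ≠ 0),
      ((univ.filter fun v : Fin n → Vec n => comb hl c v ∈ L).card : ℝ) ≤
        (2 : ℝ) ^ (-(9 / 16 : ℝ) * n) * Nv := by
    intro c hc
    have h3 := shift_count hl (mem_filter.1 hc).2 L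
    have h4 : (2 : ℝ) ^ n * ((univ.filter fun v : Fin n → Vec n => comb hl c v ∈ L).card : ℝ) =
        L.card * Nv := by
      rw [hNv]
      exact_mod_cast h3
    have h5 : (2 : ℝ) ^ (-(9 / 16 : ℝ) * n) = (2 : ℝ) ^ ((7 / 16 : ℝ) * n) / 2 ^ n := by
      rw [← Real.rpow_natCast, ← Real.rpow_sub (by norm_num)]
      congr 1
      ring
    rw [h5, div_mul_eq_mul_div, le_div_iff₀ (by positivity), mul_comm _ ((2 : ℝ) ^ n), h4]
    exact mul_le_mul_of_nonneg_right hLc hNv0
  have h3 : ((univ.filter fun v : Fin n → Vec n => ¬ Good hl v).card : ℝ) ≤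
      (univ.filter fun c : Fin l → ZMod 2 => c ≠ 0).card *
        ((2 : ℝ) ^ (-(9 / 16 : ℝ) * n) * Nv) := by
    have h4 := (card_le_card h1).trans card_biUnion_le
    calc ((univ.filter fun v : Fin n → Vec n => ¬ Good hl v).card : ℝ)
        ≤ ((∑ c ∈ (univ.filter fun c : Fin l → ZMod 2 => c ≠ 0),
            (univ.filter fun v : Fin n → Vec n => comb hl c v ∈ L).card : ℕ) : ℝ) := by
          exact_mod_cast h4
      _ = ∑ c ∈ (univ.filter fun c : Fin l → ZMod 2 => c ≠ 0),
            ((univ.filter fun v : Fin n → Vec n => comb hl c v ∈ L).card : ℝ) := by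
          push_cast
          rfl
      _ ≤ ∑ c ∈ (univ.filter fun c : Fin l → ZMod 2 => c ≠ 0),
            ((2 : ℝ) ^ (-(9 / 16 : ℝ) * n) * Nv) := sum_le_sum h2
      _ = _ := by rw [sum_const, nsmul_eq_mul]
  have h4 : ((univ.filter fun c : Fin l → ZMod 2 => c ≠ 0).card : ℝ) ≤
      (2 : ℝ) ^ ((1 / 4 : ℝ) * n) := by
    have h5 : (univ.filter fun c : Fin l → ZMod 2 => c ≠ 0).card ≤ 2 ^ l := by
      refine (card_le_univ _).trans (le_of_eq ?_)
      simp
    have h6 : ((2 : ℝ) ^ l) ≤ (2 : ℝ) ^ ((1 / 4 : ℝ) * n) := by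
      rw [← Real.rpow_natCast]
      refine Real.rpow_le_rpow_of_exponent_le (by norm_num) ?_
      have : (4 * l : ℝ) ≤ n := by exact_mod_cast hl4
      linarith
    refine le_trans ?_ h6
    exact_mod_cast h5
  refine h3.trans ?_
  rw [← hNv]
  calc ((univ.filter fun c : Fin l → ZMod 2 => c ≠ 0).card : ℝ) *
        ((2 : ℝ) ^ (-(9 / 16 : ℝ) * n) * Nv)
      ≤ (2 : ℝ) ^ ((1 / 4 : ℝ) * n) * ((2 : ℝ) ^ (-(9 / 16 : ℝ) * n) * Nv) :=
        mul_le_mul_of_nonneg_right h4 (by positivity)
    _ = _ := by
        rw [← mul_assoc, ← Real.rpow_add (by norm_num)]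
        congr 2
        ring

/-! ### One block -/

lemma ans_take (M : Mat n) (v : Fin n → Vec n) {a : ℕ} (ha : a ≤ n) :
    (ans M v).take a = List.ofFn fun j : Fin a => mv M (v (Fin.castLE ha j)) := by
  refine List.ext_getElem ?_ fun i h1 h2 => ?_
  · simp [ans, ha]
  · simp [ans]

lemma ans_mid (M : Mat n) (v : Fin n → Vec n) {a m : ℕ} (ha : a + m ≤ n) :
    ((ans M v).drop a).take m =
      List.ofFn fun j : Fin m => mv M (v ⟨a + j, by omega⟩) := by
  refine List.ext_getElem ?_ fun i h1 h2 => ?_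
  · simp [ans]
    omega
  · simp [ans]

variable {D : Type} [Fintype D] [DecidableEq D]

open Classical in
theorem good_block {l : ℕ} (hl : l ≤ n) {v : Fin n → Vec n} (hv : Good hl v)
    (N : List (Vec n) → Round n d D) {a m : ℕ} (ham : a + 2 * m ≤ l) {T : ℕ}
    (hT : 64 * (d * T) ≤ n * n) :
    ∑ M : Mat n, (if cost N (((ans M v).drop a).take (2 * m)) ((ans M v).take a) ≤ T then
      tot N M (((ans M v).drop a).take (2 * m)) ((ans M v).take a) else 0) ≤
      2 ^ n / 2 ^ (m * n) * (Fintype.card D * Fintype.card (Mat n)) := by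
  have ha : a ≤ n := by omega
  have ham' : a + 2 * m ≤ n := by omega
  obtain ⟨v', hv'⟩ : ∃ v' : Fin a → Vec n, v' = fun j => v (Fin.castLE ha j) := ⟨_, rfl⟩
  obtain ⟨w, hw⟩ : ∃ w : Fin (2 * m) → Vec n, w = fun j : Fin (2 * m) =>
      v ⟨a + j, by omega⟩ := ⟨_, rfl⟩
  have e1 : ∀ M, (ans M v).take a = List.ofFn fun j => mv M (v' j) := by
    intro M
    rw [ans_take M v ha, hv']
  have e2 : ∀ M, ((ans M v).drop a).take (2 * m) = List.ofFn fun j => mv M (w j) := by
    intro M
    rw [ans_mid M v ham', hw]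
  simp only [e1, e2]
  have hcode : ∀ (p : Fin a → ZMod 2) (q : Fin (2 * m) → ZMod 2), q ≠ 0 →
      n ≤ 16 * hwt (fun c => ∑ j, p j * v' j c + ∑ j, q j * w j c) := by
    intro p q hq
    obtain ⟨r, rfl⟩ : ∃ r, l = a + 2 * m + r := ⟨l - (a + 2 * m), by omega⟩
    have h1 := hv (Fin.append (Fin.append p q) (0 : Fin r → ZMod 2)) (by
      intro h0
      refine hq ?_
      funext j
      have h2 := congrFun h0 (Fin.castAdd r (Fin.natAdd a j))
      rw [Fin.append_left, Fin.append_right] at h2
      exact h2)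
    refine h1.trans (le_of_eq ?_)
    congr 2
    funext c
    unfold comb
    rw [Fin.sum_univ_add, Fin.sum_univ_add]
    simp only [Fin.append_left, Fin.append_right, Pi.zero_apply, zero_mul, sum_const_zero,
      add_zero]
    rw [hv', hw]
    rfl
  have h1 : ∀ (x : Fin a → Vec n) (z : Fin (2 * m) → Vec n),
      (if cost N (List.ofFn z) (List.ofFn x) ≤ T then
        ∑ M : Mat n, (if (fun j => mv M (v' j)) = x ∧ (fun j => mv M (w j)) = z then
          tot N M (List.ofFn z) (List.ofFn x) else 0) else 0) ≤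
      2 ^ n / 2 ^ (m * n) * ∑ M : Mat n, (if (fun j => mv M (v' j)) = x then
        tot N M (List.ofFn z) (List.ofFn x) else 0) := by
    intro x z
    split_ifs with hc
    · refine block_bound v' w hcode (k := 2 * (d * cost N (List.ofFn z) (List.ofFn x)))
        (by simp) ?_ _ (fun M => tot_nonneg _ _ _ _) (deg_tot _ _ _) x z
      have : d * cost N (List.ofFn z) (List.ofFn x) ≤ d * T := Nat.mul_le_mul_left _ hc
      omega
    · refine mul_nonneg (by positivity) (sum_nonneg fun M _ => ?_)
      split_ifs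
      · exact tot_nonneg _ _ _ _
      · exact le_rfl
  have h2 : ∑ M : Mat n, (if cost N (List.ofFn fun j => mv M (w j))
      (List.ofFn fun j => mv M (v' j)) ≤ T then
      tot N M (List.ofFn fun j => mv M (w j)) (List.ofFn fun j => mv M (v' j)) else 0) =
      ∑ x : Fin a → Vec n, ∑ z : Fin (2 * m) → Vec n,
        (if cost N (List.ofFn z) (List.ofFn x) ≤ T then
        ∑ M : Mat n, (if (fun j => mv M (v' j)) = x ∧ (fun j => mv M (w j)) = z then
          tot N M (List.ofFn z) (List.ofFn x) else 0) else 0) := by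
    have h3 : ∀ (x : Fin a → Vec n) (z : Fin (2 * m) → Vec n),
        (if cost N (List.ofFn z) (List.ofFn x) ≤ T then
        ∑ M : Mat n, (if (fun j => mv M (v' j)) = x ∧ (fun j => mv M (w j)) = z then
          tot N M (List.ofFn z) (List.ofFn x) else 0) else 0) =
        ∑ M : Mat n, (if (fun j => mv M (v' j)) = x then (if (fun j => mv M (w j)) = z then
          (if cost N (List.ofFn z) (List.ofFn x) ≤ T then
          tot N M (List.ofFn z) (List.ofFn x) else 0) else 0) else 0) := by
      intro x z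
      split_ifs with hc
      · refine sum_congr rfl fun M _ => ?_
        rw [ite_and]
      · simp
    simp only [h3]
    have h4 : ∀ x : Fin a → Vec n, ∑ z : Fin (2 * m) → Vec n, ∑ M : Mat n,
        (if (fun j => mv M (v' j)) = x then (if (fun j => mv M (w j)) = z then
          (if cost N (List.ofFn z) (List.ofFn x) ≤ T then
          tot N M (List.ofFn z) (List.ofFn x) else 0) else 0) else 0) =
        ∑ M : Mat n, (if (fun j => mv M (v' j)) = x then
          (if cost N (List.ofFn fun j => mv M (w j)) (List.ofFn x) ≤ T then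
          tot N M (List.ofFn fun j => mv M (w j)) (List.ofFn x) else 0) else 0) := by
      intro x
      rw [sum_comm]
      refine sum_congr rfl fun M _ => ?_
      by_cases hx : (fun j => mv M (v' j)) = x
      · simp only [if_pos hx]
        rw [sum_ite_eq, if_pos (mem_univ _)]
      · simp only [if_neg hx, sum_const_zero]
    simp only [h4]
    rw [sum_comm]
    refine sum_congr rfl fun M _ => ?_
    rw [sum_ite_eq, if_pos (mem_univ _)]
  rw [h2]
  calc ∑ x : Fin a → Vec n, ∑ z : Fin (2 * m) → Vec n,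
        (if cost N (List.ofFn z) (List.ofFn x) ≤ T then
        ∑ M : Mat n, (if (fun j => mv M (v' j)) = x ∧ (fun j => mv M (w j)) = z then
          tot N M (List.ofFn z) (List.ofFn x) else 0) else 0)
      ≤ ∑ x : Fin a → Vec n, ∑ z : Fin (2 * m) → Vec n,
        2 ^ n / 2 ^ (m * n) * ∑ M : Mat n, (if (fun j => mv M (v' j)) = x then
          tot N M (List.ofFn z) (List.ofFn x) else 0) :=
        sum_le_sum fun x _ => sum_le_sum fun z _ => h1 x z
    _ = 2 ^ n / 2 ^ (m * n) * ∑ M : Mat n, ∑ x : Fin a → Vec n,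
          (if (fun j => mv M (v' j)) = x then ∑ z : Fin (2 * m) → Vec n,
            tot N M (List.ofFn z) (List.ofFn x) else 0) := by
        simp only [← mul_sum]
        congr 1
        have h5 : ∀ x : Fin a → Vec n, ∑ z : Fin (2 * m) → Vec n, ∑ M : Mat n,
            (if (fun j => mv M (v' j)) = x then
              tot N M (List.ofFn z) (List.ofFn x) else 0) =
            ∑ M : Mat n, (if (fun j => mv M (v' j)) = x then ∑ z : Fin (2 * m) → Vec n,
              tot N M (List.ofFn z) (List.ofFn x) else 0) := by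
          intro x
          rw [sum_comm]
          refine sum_congr rfl fun M _ => ?_
          split_ifs
          · rfl
          · simp only [sum_const_zero]
        simp only [h5]
        rw [sum_comm]
    _ = 2 ^ n / 2 ^ (m * n) * (Fintype.card D * Fintype.card (Mat n)) := by
        congr 1
        simp only [sum_tot]
        have h6 : ∀ M : Mat n, ∑ x : Fin a → Vec n,
            (if (fun j => mv M (v' j)) = x then (Fintype.card D : ℝ) else 0) =
              Fintype.card D := by
          intro M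
          rw [sum_ite_eq, if_pos (mem_univ _)]
        simp only [h6, sum_const, card_univ, nsmul_eq_mul]
        ring

/-- the probability that all answers are right is at most the sum of the probabilities for the
answers in one block, for all basis states of the memory at the beginning of the block -/
lemma prob_le_block (N : List (Vec n) → Round n d D) (M : Mat n) (L : List (Vec n)) (a m : ℕ)
    {ψ : D → ℂ} (hψ : nsq ψ ≤ 1) : prob N M L [] ψ ≤ tot N M ((L.drop a).take m) (L.take a) := by
  have h1 : L = L.take a ++ ((L.drop a).take m ++ (L.drop a).drop m) := by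
    rw [List.take_append_drop, List.take_append_drop]
  have h2 : prob N M L [] ψ = prob N M (L.take a ++ ((L.drop a).take m ++ (L.drop a).drop m)) []
      ψ := by rw [← h1]
  rw [h2]
  have h3 := prob_append_bound N M ((L.drop a).take m ++ (L.drop a).drop m)
    (tot N M ((L.drop a).take m) (L.take a)) (tot_nonneg _ _ _ _) (L.take a) [] ψ (by
      intro φ
      rw [List.nil_append]
      exact (prob_append_le _ _ _ _ _ _).trans (prob_le_tot _ _ _ _ _))
  refine h3.trans ?_
  calc tot N M ((L.drop a).take m) (L.take a) * nsq ψ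
      ≤ tot N M ((L.drop a).take m) (L.take a) * 1 :=
        mul_le_mul_of_nonneg_left hψ (tot_nonneg _ _ _ _)
    _ = _ := mul_one _

/-- the costs of the blocks -/
lemma cost_blocks (N : List (Vec n) → Round n d D) (L : List (Vec n)) (m B : ℕ) :
    ∑ b ∈ range B, cost N ((L.drop (m * b)).take m) (L.take (m * b)) =
      cost N (L.take (m * B)) [] := by
  induction B with
  | zero => simp [cost]
  | succ B ih =>
    rw [sum_range_succ, ih]
    have h1 : L.take (m * (B + 1)) = L.take (m * B) ++ (L.drop (m * B)).take m := by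
      rw [mul_add, mul_one, List.take_add]
    rw [h1, cost_append, List.nil_append]

lemma cost_take_le (N : List (Vec n) → Round n d D) (L : List (Vec n)) (k : ℕ) :
    cost N (L.take k) [] ≤ cost N L [] := by
  have h1 : cost N L [] = cost N (L.take k ++ L.drop k) [] := by rw [List.take_append_drop]
  rw [h1, cost_append]
  exact Nat.le_add_right _ _

end Pool.Agent.H85Q
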