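import Mathlib

/-!
H85Q (helper85, MP_0f1f76_lc): the definitions. Quantum algorithms for the online multiplication of an
`n × n` matrix over the field with two elements with `n` vectors, with a bounded memory between the
vectors.
-/

set_option autoImplicit false

namespace Pool.Agent.H85Q

open Finset Matrix

/-! ### Matrices, vectors, degree -/

/-- vectors over the field with two elements -/
abbrev Vec (n : ℕ) := Fin n → ZMod 2

/-- matrices over the field with two elements: the families of the `n` rows -/
abbrev Mat (n : ℕ) := Fin n → Vec n

/-- the product of a matrix and a vector -/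
def mv {n : ℕ} (M : Mat n) (x : Vec n) : Vec n := fun i => ∑ j, M i j * x j

/-- `(-1)^x` -/
noncomputable def sgn (x : ZMod 2) : ℂ := if x = 0 then 1 else -1

variable {n d : ℕ}

/-- the pairing of two families of vectors -/
def pair {κ : Type} [Fintype κ] (u y : κ → Vec n) : ZMod 2 := ∑ j, ∑ i, u j i * y j i

/-- the characters of the group of matrices: `(-1) ^ (∑_ij u_ij M_ij)` -/
noncomputable def chi (u M : Mat n) : ℂ := sgn (pair u M)

/-- the number of the nonzero entries -/
def wt (u : Mat n) : ℕ := (univ.filter fun p : Fin n × Fin n => u p.1 p.2 ≠ 0).card

/-- functions of the matrix of degree at most `k`: linear combinations of the functions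
`M ↦ (-1)^(∑ u_ij M_ij)`, where `u` has at most `k` nonzero entries -/
def DegLE (n k : ℕ) : Submodule ℂ (Mat n → ℂ) :=
  Submodule.span ℂ {f | ∃ u : Mat n, wt u ≤ k ∧ f = chi u}

/-! ### Queries, rounds, algorithms -/

/-- the square of the norm of a state -/
noncomputable def nsq {X : Type} [Fintype X] (φ : X → ℂ) : ℝ := ∑ x, ‖φ x‖ ^ 2

/-- A query of degree at most `d` to the matrix `M`: a unitary map of the workspace which depends on
`M`, all of whose matrix entries are functions of `M` of degree at most `d`. -/
structure IsQuery (n d : ℕ) {W : Type} [Fintype W] [DecidableEq W]
    (q : Mat n → Matrix W W ℂ) : Prop where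
  unitary : ∀ M, (q M)ᴴ * q M = 1
  degree : ∀ x y, (fun M => q M x y) ∈ DegLE n d

/-- What an algorithm does with one vector. The memory has the basis `D`, the workspace has the
finite basis `W`. The memory is embedded in the workspace (`prep`), then the queries are made (other
unitary maps of the workspace can be included in the queries, because they do not change the degree),
then the answer `z` is given and the memory for the next vector is prepared by a measurement with the
operators `meas z e`, whose additional outcome `e` is discarded. -/
structure Round (n d : ℕ) (D : Type) [Fintype D] [DecidableEq D] where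
  W : Type
  E : Type
  [fW : Fintype W]
  [dW : DecidableEq W]
  [fE : Fintype E]
  prep : Matrix W D ℂ
  prep_iso : prepᴴ * prep = 1
  queries : List (Mat n → Matrix W W ℂ)
  query : ∀ q ∈ queries, IsQuery n d q
  meas : Vec n → E → Matrix D W ℂ
  meas_sum : ∑ z, ∑ e, (meas z e)ᴴ * meas z e = 1

attribute [instance] Round.fW Round.dW Round.fE

/-- the state after some queries -/
noncomputable def evolve {W : Type} [Fintype W] (M : Mat n) :
    List (Mat n → Matrix W W ℂ) → (W → ℂ) → W → ℂ
  | [], φ => φ
  | q :: l, φ => evolve M l ((q M).mulVec φ)

variable {D : Type} [Fintype D] [DecidableEq D]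

/-- the (not normalised) state of the memory after one round with the state `ψ` at the beginning,
if the matrix is `M`, the answer is `z` and the discarded outcome is `e` -/
noncomputable def Round.apply (R : Round n d D) (M : Mat n) (z : Vec n) (e : R.E) (ψ : D → ℂ) :
    D → ℂ :=
  (R.meas z e).mulVec (evolve M R.queries (R.prep.mulVec ψ))

/-- The probability of the answers `z₁, z₂, …` in the next rounds, if the answers `h` were given
before, the matrix is `M` and the state of the memory is `ψ`. The rounds `N h` may depend on the
answers `h` given before. -/
noncomputable def prob (N : List (Vec n) → Round n d D) (M : Mat n) :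
    List (Vec n) → List (Vec n) → (D → ℂ) → ℝ
  | [], _, ψ => nsq ψ
  | z :: zs, h, ψ => ∑ e, prob N M zs (h ++ [z]) ((N h).apply M z e ψ)

/-- the number of queries in the next rounds, if the answers are `z₁, z₂, …` -/
def cost (N : List (Vec n) → Round n d D) : List (Vec n) → List (Vec n) → ℕ
  | [], _ => 0
  | z :: zs, h => (N h).queries.length + cost N zs (h ++ [z])

/-- the right answers -/
def ans (M : Mat n) (v : Fin n → Vec n) : List (Vec n) := List.ofFn fun i => mv M (v i)

/-- A quantum algorithm for online matrix-vector multiplication whose memory between the vectors has
the basis `D`. The first state of the memory may depend on the matrix (and on the vectors) in an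
arbitrary way. What is done with a vector (`next`) may depend on all vectors, also on the later ones,
and on the list of the answers given before. -/
structure Alg (n d : ℕ) (D : Type) [Fintype D] [DecidableEq D] where
  init : Mat n → (Fin n → Vec n) → D → ℂ
  init_norm : ∀ M v, nsq (init M v) = 1
  next : (Fin n → Vec n) → List (Vec n) → Round n d D

/-- the probability that all answers are right -/
noncomputable def Alg.success (A : Alg n d D) (M : Mat n) (v : Fin n → Vec n) : ℝ :=
  prob (A.next v) M (ans M v) [] (A.init M v)

/-- the number of queries, if all answers are right -/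
def Alg.queries (A : Alg n d D) (M : Mat n) (v : Fin n → Vec n) : ℕ :=
  cost (A.next v) (ans M v) []

/-- the mean over all matrices and all sequences of `n` vectors -/
noncomputable def avg (f : Mat n → (Fin n → Vec n) → ℝ) : ℝ :=
  (∑ M, ∑ v, f M v) / (Fintype.card (Mat n) * Fintype.card (Fin n → Vec n))

/-! ### Reading words -/

/-- the matrix of a permutation of the basis -/
noncomputable def permMat {W : Type} [DecidableEq W] (σ : Equiv.Perm W) : Matrix W W ℂ :=
  Matrix.of fun x y => if x = σ y then 1 else 0

/-- The map `|a, y, x⟩ ↦ |a, y + c_a(M), x⟩` of a memory with the contents `c_a(M)`: reading the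
cell with the address `a` in superposition. -/
def readPerm {A K X : Type} [AddGroup K] (c : A → Mat n → K) (M : Mat n) :
    Equiv.Perm (A × K × X) where
  toFun p := (p.1, p.2.1 + c p.1 M, p.2.2)
  invFun p := (p.1, p.2.1 - c p.1 M, p.2.2)
  left_inv p := by simp
  right_inv p := by simp

/-- the basis of a memory of `p * n` qubits, which has room for `p` vectors -/
abbrev Mem (n p : ℕ) := Fin p → Vec n

end Pool.Agent.H85Q
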