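import Pool.Agent.H85Q.Code

/-!
H85Q (helper85, MP_0f1f76_lc): the lower bound.
-/

set_option autoImplicit false

namespace Pool.Agent.H85Q

open Finset

variable {n d : ℕ} {D : Type} [Fintype D] [DecidableEq D]

/-- the number of queries in one block -/
def bcost (A : Alg n d D) (m a : ℕ) (M : Mat n) (v : Fin n → Vec n) : ℕ :=
  cost (A.next v) (((ans M v).drop a).take m) ((ans M v).take a)

lemma success_nonneg (A : Alg n d D) (M : Mat n) (v : Fin n → Vec n) : 0 ≤ A.success M v :=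
  prob_nonneg _ _ _ _ _

lemma success_le_one (A : Alg n d D) (M : Mat n) (v : Fin n → Vec n) : A.success M v ≤ 1 :=
  (prob_le _ _ _ _ _).trans (A.init_norm M v).le

open Classical in
lemma one_vec (A : Alg n d D) {l m a T : ℕ} (hl : l ≤ n) (ham : a + 2 * m ≤ l)
    (hT : 64 * (d * T) ≤ n * n) {η : ℝ} (hη : 0 ≤ η)
    (hη2 : (2 : ℝ) ^ n / 2 ^ (m * n) * Fintype.card D ≤ η) (v : Fin n → Vec n) :
    ∑ M : Mat n, A.success M v ≤ (if ¬ Good hl v then (Fintype.card (Mat n) : ℝ) else 0) +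
      (∑ M : Mat n, (bcost A (2 * m) a M v : ℝ)) / (T + 1) + η * Fintype.card (Mat n) := by
  have hT1 : (0 : ℝ) < T + 1 := by positivity
  have h0 : 0 ≤ (∑ M : Mat n, (bcost A (2 * m) a M v : ℝ)) / (T + 1) :=
    div_nonneg (sum_nonneg fun _ _ => by positivity) hT1.le
  by_cases hv : Good hl v
  · rw [if_neg (not_not.2 hv), zero_add]
    have h1 := good_block hl hv (A.next v) ham hT
    have h2 : ∀ M : Mat n, A.success M v ≤ (bcost A (2 * m) a M v : ℝ) / (T + 1) +
        (if cost (A.next v) (((ans M v).drop a).take (2 * m)) ((ans M v).take a) ≤ T then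
          tot (A.next v) M (((ans M v).drop a).take (2 * m)) ((ans M v).take a) else 0) := by
      intro M
      split_ifs with hc
      · have h3 := prob_le_block (A.next v) M (ans M v) a (2 * m) (A.init_norm M v).le
        have h4 : (0 : ℝ) ≤ (bcost A (2 * m) a M v : ℝ) / (T + 1) := by positivity
        unfold Alg.success
        linarith
      · rw [add_zero]
        refine (success_le_one A M v).trans ?_
        rw [one_le_div hT1]
        have h3 : T + 1 ≤ bcost A (2 * m) a M v := by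
          unfold bcost
          omega
        exact_mod_cast h3
    calc ∑ M : Mat n, A.success M v ≤ ∑ M : Mat n, ((bcost A (2 * m) a M v : ℝ) / (T + 1) +
        (if cost (A.next v) (((ans M v).drop a).take (2 * m)) ((ans M v).take a) ≤ T then
          tot (A.next v) M (((ans M v).drop a).take (2 * m)) ((ans M v).take a) else 0)) :=
          sum_le_sum fun M _ => h2 M
      _ ≤ (∑ M : Mat n, (bcost A (2 * m) a M v : ℝ)) / (T + 1) +
          2 ^ n / 2 ^ (m * n) * (Fintype.card D * Fintype.card (Mat n)) := by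
          rw [sum_add_distrib, ← sum_div]
          linarith
      _ ≤ _ := by
          rw [← mul_assoc]
          have : (2 : ℝ) ^ n / 2 ^ (m * n) * Fintype.card D * Fintype.card (Mat n) ≤
              η * Fintype.card (Mat n) := mul_le_mul_of_nonneg_right hη2 (by positivity)
          linarith
  · rw [if_pos hv]
    have h1 : ∑ M : Mat n, A.success M v ≤ Fintype.card (Mat n) := by
      calc ∑ M : Mat n, A.success M v ≤ ∑ M : Mat n, (1 : ℝ) :=
            sum_le_sum fun M _ => success_le_one A M v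
        _ = _ := by simp
    have h2 : 0 ≤ η * Fintype.card (Mat n) := by positivity
    linarith

/-- the numerical estimates -/
lemma numbers {n S : ℕ} (hn : 64 ≤ n) (hS : 64 * S ≤ n ^ 2) {c : ℕ} (hc : c ≤ 2 ^ S) :
    2 * (S / n + 3) ≤ n / 4 ∧
    n ^ 2 ≤ 60 * (S + n) * (n / 4 / (2 * (S / n + 3))) ∧
    (2 : ℝ) ^ n / 2 ^ ((S / n + 3) * n) * c ≤ (1 / 2) ^ n := by
  have hn0 : 0 < n := by omega
  have h1 : S / n ≤ n / 64 := by
    rw [Nat.div_le_iff_le_mul_add_pred hn0]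
    have h2 : S ≤ n * n / 64 := by
      rw [Nat.le_div_iff_mul_le (by norm_num)]
      nlinarith
    have h3 : n * n / 64 ≤ n * (n / 64) + (n - 1) := by
      rw [Nat.div_le_iff_le_mul_add_pred (by norm_num)]
      have h4 : n ≤ 64 * (n / 64) + 63 := by omega
      have h5 : n * n ≤ n * (64 * (n / 64) + 63) := Nat.mul_le_mul_left n h4
      obtain ⟨q, hq⟩ : ∃ q, q = n / 64 := ⟨_, rfl⟩
      rw [← hq] at h5 ⊢
      obtain ⟨n', rfl⟩ : ∃ n', n = n' + 1 := ⟨n - 1, by omega⟩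
      rw [Nat.add_sub_cancel]
      nlinarith
    exact h2.trans h3
  have h2 : 2 * (S / n + 3) ≤ n / 4 := by
    obtain ⟨q, hq⟩ : ∃ q, q = S / n := ⟨_, rfl⟩
    rw [← hq] at h1 ⊢
    omega
  refine ⟨h2, ?_, ?_⟩
  · obtain ⟨m, hm⟩ : ∃ m, m = S / n + 3 := ⟨_, rfl⟩
    obtain ⟨B, hB⟩ : ∃ B, B = n / 4 / (2 * m) := ⟨_, rfl⟩
    rw [← hm] at h2 ⊢
    rw [← hB]
    have hm3 : 3 ≤ m := by
      rw [hm]
      exact Nat.le_add_left 3 _
    have hm0 : 0 < 2 * m := by linarith
    have h3 : 1 ≤ B := by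
      rw [hB, Nat.le_div_iff_mul_le hm0]
      omega
    have h4 : n / 4 < 2 * m * (B + 1) := by
      rw [hB]
      exact Nat.lt_mul_div_succ _ hm0
    have h5 : n ≤ 5 * (n / 4) := by omega
    have h6 : m * n ≤ S + 3 * n := by
      rw [hm, add_mul]
      exact Nat.add_le_add_right (Nat.div_mul_le_self S n) _
    have h7 : n ≤ 20 * (m * B) := by nlinarith
    calc n ^ 2 = n * n := by ring
      _ ≤ 20 * (m * B) * n := Nat.mul_le_mul_right n h7
      _ = 20 * (m * n) * B := by ring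
      _ ≤ 20 * (S + 3 * n) * B := by
          exact Nat.mul_le_mul_right _ (Nat.mul_le_mul_left _ h6)
      _ ≤ 60 * (S + n) * B := Nat.mul_le_mul_right _ (by omega)
  · have h3 : 2 * n + S ≤ (S / n + 3) * n := by
      have h4 : S < n * (S / n + 1) := Nat.lt_mul_div_succ S hn0
      nlinarith
    have h4 : (c : ℝ) ≤ 2 ^ S := by exact_mod_cast hc
    have h5 : (2 : ℝ) ^ (2 * n + S) ≤ 2 ^ ((S / n + 3) * n) :=
      pow_le_pow_right₀ (by norm_num) h3
    have h6 : (0 : ℝ) < 2 ^ ((S / n + 3) * n) := by positivity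
    rw [div_mul_eq_mul_div, div_le_iff₀ h6]
    calc (2 : ℝ) ^ n * c ≤ 2 ^ n * 2 ^ S := by gcongr
      _ = (1 / 2) ^ n * 2 ^ (2 * n + S) := by
          have h7 : (2 : ℝ) ^ n ≠ 0 := by positivity
          rw [pow_add, two_mul, pow_add, one_div, inv_pow]
          field_simp
      _ ≤ _ := by gcongr

open Classical in
/-- **The lower bound.** -/
theorem lower {n d S : ℕ} (hn : 64 ≤ n) (hd : 1 ≤ d) (hS : 64 * S ≤ n ^ 2) {D : Type} [Fintype D]
    [DecidableEq D] (hD : Fintype.card D ≤ 2 ^ S) {Ω : Type} [Fintype Ω] (μ : Ω → ℝ)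
    (hμ0 : ∀ ω, 0 ≤ μ ω) (hμ1 : ∑ ω, μ ω = 1) (A : Ω → Alg n d D) {γ : ℝ}
    (hγ : (2 : ℝ) ^ (-(n : ℝ) / 4) ≤ γ)
    (hs : γ ≤ avg fun M v => ∑ ω, μ ω * (A ω).success M v) :
    γ * n ^ 4 ≤ 7680 * d * (S + n) * avg fun M v => ∑ ω, μ ω * ((A ω).queries M v : ℝ) := by
  obtain ⟨h2m, hB, hη⟩ := numbers hn hS hD
  obtain ⟨m, hm⟩ : ∃ m, m = S / n + 3 := ⟨_, rfl⟩
  rw [← hm] at h2m hB hη
  obtain ⟨l, hl⟩ : ∃ l, l = n / 4 := ⟨_, rfl⟩
  rw [← hl] at h2m hB
  obtain ⟨B, hBd⟩ : ∃ B, B = l / (2 * m) := ⟨_, rfl⟩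
  rw [← hBd] at hB
  obtain ⟨T, hT⟩ : ∃ T, T = n * n / (64 * d) := ⟨_, rfl⟩
  have hln : l ≤ n := by omega
  have hl4 : 4 * l ≤ n := by omega
  have hT1 : 64 * (d * T) ≤ n * n := by
    rw [hT, ← mul_assoc]
    exact Nat.mul_div_le _ _
  have hT2 : n * n ≤ 64 * d * (T + 1) := by
    rw [hT]
    exact (Nat.lt_mul_div_succ _ (by omega)).le
  have hBl : 2 * m * B ≤ l := by
    rw [hBd]
    exact Nat.mul_div_le _ _
  obtain ⟨NM, hNM⟩ : ∃ NM : ℝ, NM = Fintype.card (Mat n) := ⟨_, rfl⟩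
  obtain ⟨NV, hNV⟩ : ∃ NV : ℝ, NM = NV := ⟨_, rfl⟩
  have hNM0 : 0 < NM := by
    rw [hNM]
    exact_mod_cast Fintype.card_pos
  have hNV0 : 0 < NV := by
    rw [← hNV]
    exact hNM0
  obtain ⟨ε, hε⟩ : ∃ ε : ℝ, ε = (2 : ℝ) ^ (-(5 / 16 : ℝ) * n) := ⟨_, rfl⟩
  obtain ⟨η, hηd⟩ : ∃ η : ℝ, η = (1 / 2 : ℝ) ^ n := ⟨_, rfl⟩
  rw [← hηd] at hη
  have hη0 : 0 ≤ η := by rw [hηd]; positivity
  -- the mean cost of a block
  obtain ⟨C, hC⟩ : ∃ C : ℕ → ℝ, C = fun b => ∑ ω, μ ω * ∑ v : Fin n → Vec n, ∑ M : Mat n,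
    (bcost (A ω) (2 * m) (2 * m * b) M v : ℝ) := ⟨_, rfl⟩
  have hblock : ∀ b < B, (γ - ε - η) * (T + 1) * (NM * NV) ≤ C b := by
    intro b hb
    have ham : 2 * m * b + 2 * m ≤ l := by
      calc 2 * m * b + 2 * m = 2 * m * (b + 1) := by ring
        _ ≤ 2 * m * B := Nat.mul_le_mul_left _ hb
        _ ≤ l := hBl
    have h1 : ∀ ω, ∑ v : Fin n → Vec n, ∑ M : Mat n, (A ω).success M v ≤
        ε * NV * NM + (∑ v : Fin n → Vec n, ∑ M : Mat n,
          (bcost (A ω) (2 * m) (2 * m * b) M v : ℝ)) / (T + 1) + η * NM * NV := by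
      intro ω
      have h2 := fun v => one_vec (A ω) hln ham hT1 hη0 hη v
      calc ∑ v : Fin n → Vec n, ∑ M : Mat n, (A ω).success M v
          ≤ ∑ v : Fin n → Vec n, ((if ¬ Good hln v then (Fintype.card (Mat n) : ℝ) else 0) +
            (∑ M : Mat n, (bcost (A ω) (2 * m) (2 * m * b) M v : ℝ)) / (T + 1) +
              η * Fintype.card (Mat n)) := sum_le_sum fun v _ => h2 v
        _ = (univ.filter fun v : Fin n → Vec n => ¬ Good hln v).card * NM +
            (∑ v : Fin n → Vec n, ∑ M : Mat n,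
              (bcost (A ω) (2 * m) (2 * m * b) M v : ℝ)) / (T + 1) + η * NM * NV := by
            rw [sum_add_distrib, sum_add_distrib, ← sum_filter, sum_const, nsmul_eq_mul,
              sum_const, card_univ, nsmul_eq_mul, sum_div, ← hNM, hNV]
            ring
        _ ≤ _ := by
            have h3 := bad_count hln hl4
            rw [← hε, ← hNM, hNV] at h3
            have h4 := mul_le_mul_of_nonneg_right h3 hNM0.le
            linarith
    have h2 : γ * (NM * NV) ≤ ∑ ω, μ ω * ∑ v : Fin n → Vec n, ∑ M : Mat n,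
        (A ω).success M v := by
      have h3 : avg (fun M v => ∑ ω, μ ω * (A ω).success M v) * (NM * NV) =
          ∑ ω, μ ω * ∑ v : Fin n → Vec n, ∑ M : Mat n, (A ω).success M v := by
        unfold avg
        rw [← hNM, hNV, div_mul_cancel₀ _ (by positivity)]
        simp only [mul_sum]
        rw [sum_comm]
        have h4 : ∀ v : Fin n → Vec n, ∑ M : Mat n, ∑ ω, μ ω * (A ω).success M v =
            ∑ ω, ∑ M : Mat n, μ ω * (A ω).success M v := fun v => sum_comm
        simp only [h4]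
        rw [sum_comm]
      rw [← h3]
      exact mul_le_mul_of_nonneg_right hs (by positivity)
    have h3 : ∑ ω, μ ω * ∑ v : Fin n → Vec n, ∑ M : Mat n, (A ω).success M v ≤
        ε * NV * NM + C b / (T + 1) + η * NM * NV := by
      calc ∑ ω, μ ω * ∑ v : Fin n → Vec n, ∑ M : Mat n, (A ω).success M v
          ≤ ∑ ω, μ ω * (ε * NV * NM + (∑ v : Fin n → Vec n, ∑ M : Mat n,
          (bcost (A ω) (2 * m) (2 * m * b) M v : ℝ)) / (T + 1) + η * NM * NV) :=
            sum_le_sum fun ω _ => mul_le_mul_of_nonneg_left (h1 ω) (hμ0 ω)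
        _ = (∑ ω, μ ω) * (ε * NV * NM + η * NM * NV) + C b / (T + 1) := by
            rw [hC]
            dsimp only
            rw [sum_mul, sum_div, ← sum_add_distrib]
            refine sum_congr rfl fun ω _ => ?_
            ring
        _ = _ := by
            rw [hμ1]
            ring
    have hT0 : (0 : ℝ) < T + 1 := by positivity
    have h4 : (γ - ε - η) * (NM * NV) ≤ C b / (T + 1) := by nlinarith
    rw [le_div_iff₀ hT0] at h4
    nlinarith
  have hsum : B * ((γ - ε - η) * (T + 1) * (NM * NV)) ≤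
      ∑ ω, μ ω * ∑ v : Fin n → Vec n, ∑ M : Mat n, ((A ω).queries M v : ℝ) := by
    calc B * ((γ - ε - η) * (T + 1) * (NM * NV)) =
          ∑ b ∈ range B, ((γ - ε - η) * (T + 1) * (NM * NV)) := by
          rw [sum_const, card_range, nsmul_eq_mul]
      _ ≤ ∑ b ∈ range B, C b := sum_le_sum fun b hb => hblock b (mem_range.1 hb)
      _ = ∑ ω, μ ω * ∑ v : Fin n → Vec n, ∑ M : Mat n,
            ((∑ b ∈ range B, bcost (A ω) (2 * m) (2 * m * b) M v : ℕ) : ℝ) := by
          rw [hC]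
          rw [sum_comm]
          refine sum_congr rfl fun ω _ => ?_
          rw [← mul_sum]
          congr 1
          rw [sum_comm]
          refine sum_congr rfl fun v _ => ?_
          rw [sum_comm]
          refine sum_congr rfl fun M _ => ?_
          push_cast
          rfl
      _ ≤ _ := by
          refine sum_le_sum fun ω _ => mul_le_mul_of_nonneg_left ?_ (hμ0 ω)
          refine sum_le_sum fun v _ => sum_le_sum fun M _ => ?_
          have h5 : ∑ b ∈ range B, bcost (A ω) (2 * m) (2 * m * b) M v ≤ (A ω).queries M v := by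
            unfold bcost Alg.queries
            rw [cost_blocks]
            exact cost_take_le _ _ _
          exact_mod_cast h5
  have havg : avg (fun M v => ∑ ω, μ ω * ((A ω).queries M v : ℝ)) * (NM * NV) =
      ∑ ω, μ ω * ∑ v : Fin n → Vec n, ∑ M : Mat n, ((A ω).queries M v : ℝ) := by
    unfold avg
    rw [← hNM, hNV, div_mul_cancel₀ _ (by positivity)]
    simp only [mul_sum]
    rw [sum_comm]
    have h4 : ∀ v : Fin n → Vec n, ∑ M : Mat n, ∑ ω, μ ω * ((A ω).queries M v : ℝ) =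
        ∑ ω, ∑ M : Mat n, μ ω * ((A ω).queries M v : ℝ) := fun v => sum_comm
    simp only [h4]
    rw [sum_comm]
  rw [← havg] at hsum
  obtain ⟨Q, hQ⟩ : ∃ Q : ℝ, Q = avg (fun M v => ∑ ω, μ ω * ((A ω).queries M v : ℝ)) := ⟨_, rfl⟩
  rw [← hQ] at hsum ⊢
  have h6 : B * ((γ - ε - η) * (T + 1)) ≤ Q := by
    have h7 : (0 : ℝ) < NM * NV := by positivity
    refine le_of_mul_le_mul_right ?_ h7
    calc B * ((γ - ε - η) * (T + 1)) * (NM * NV) = B * ((γ - ε - η) * (T + 1) * (NM * NV)) := by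
          ring
      _ ≤ _ := hsum
  -- the small terms
  have hnR : (64 : ℝ) ≤ n := by exact_mod_cast hn
  obtain ⟨g, hg⟩ : ∃ g : ℝ, g = (2 : ℝ) ^ (-(n : ℝ) / 4) := ⟨_, rfl⟩
  rw [← hg] at hγ
  have hg0 : 0 < g := by rw [hg]; positivity
  have hεg : ε ≤ g / 16 := by
    have h7 : ε = g * (2 : ℝ) ^ (-(n : ℝ) / 16) := by
      rw [hε, hg, ← Real.rpow_add (by norm_num)]
      congr 1
      ring
    have h8 : (2 : ℝ) ^ (-(n : ℝ) / 16) ≤ (2 : ℝ) ^ (-(4 : ℝ)) :=
      Real.rpow_le_rpow_of_exponent_le (by norm_num) (by linarith)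
    have h9 : (2 : ℝ) ^ (-(4 : ℝ)) = 1 / 16 := by
      rw [Real.rpow_neg (by norm_num)]
      norm_num
    rw [h9] at h8
    rw [h7]
    calc g * (2 : ℝ) ^ (-(n : ℝ) / 16) ≤ g * (1 / 16) := mul_le_mul_of_nonneg_left h8 hg0.le
      _ = g / 16 := by ring
  have hηg : η ≤ g / 16 := by
    have h7 : η = g * (2 : ℝ) ^ (-(3 * n : ℝ) / 4) := by
      rw [hηd, hg, ← Real.rpow_add (by norm_num), one_div, inv_pow, ← Real.rpow_natCast,
        ← Real.rpow_neg (by norm_num)]
      congr 1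
      ring
    have h8 : (2 : ℝ) ^ (-(3 * n : ℝ) / 4) ≤ (2 : ℝ) ^ (-(4 : ℝ)) :=
      Real.rpow_le_rpow_of_exponent_le (by norm_num) (by linarith)
    have h9 : (2 : ℝ) ^ (-(4 : ℝ)) = 1 / 16 := by
      rw [Real.rpow_neg (by norm_num)]
      norm_num
    rw [h9] at h8
    rw [h7]
    calc g * (2 : ℝ) ^ (-(3 * n : ℝ) / 4) ≤ g * (1 / 16) := mul_le_mul_of_nonneg_left h8 hg0.le
      _ = g / 16 := by ring
  have hhalf : γ / 2 ≤ γ - ε - η := by linarith
  have hγ0 : 0 ≤ γ := by linarith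
  have hBR : (n : ℝ) ^ 2 ≤ 60 * (S + n) * B := by exact_mod_cast hB
  have hTR : (n : ℝ) * n ≤ 64 * d * (T + 1) := by exact_mod_cast hT2
  have h8 : B * (γ / 2 * (T + 1)) ≤ Q := by
    refine le_trans ?_ h6
    gcongr
  calc γ * (n : ℝ) ^ 4 = γ * ((n : ℝ) ^ 2 * ((n : ℝ) * n)) := by ring
    _ ≤ γ * ((60 * (S + n) * B) * (64 * d * (T + 1))) := by
        gcongr
    _ = 7680 * d * (S + n) * (B * (γ / 2 * (T + 1))) := by ring
    _ ≤ 7680 * d * (S + n) * Q := by gcongr

end Pool.Agent.H85Q
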