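import Pool.Agent.H85Q.Chr

/-!
H85Q (helper85, MP_0f1f76_lc): quantum algorithms for online matrix-vector multiplication with a
bounded memory between the vectors.
-/

set_option autoImplicit false

namespace Pool.Agent.H85Q

open Finset Matrix

variable {n d : ℕ}

variable {D : Type} [Fintype D] [DecidableEq D]

/-! ### Norms -/

lemma nsq_nonneg {X : Type} [Fintype X] (φ : X → ℂ) : 0 ≤ nsq φ :=
  sum_nonneg fun _ _ => by positivity

lemma nsq_eq {X : Type} [Fintype X] (φ : X → ℂ) : ((nsq φ : ℝ) : ℂ) = star φ ⬝ᵥ φ := by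
  unfold nsq dotProduct
  push_cast
  refine sum_congr rfl fun x _ => ?_
  rw [Pi.star_apply, Complex.star_def, ← Complex.normSq_eq_conj_mul_self, Complex.normSq_eq_norm_sq]
  push_cast
  rfl

lemma nsq_mul {X Y : Type} [Fintype X] [Fintype Y] (A : Matrix Y X ℂ) (φ : X → ℂ) :
    ((nsq (A.mulVec φ) : ℝ) : ℂ) = star φ ⬝ᵥ ((Aᴴ * A).mulVec φ) := by
  rw [nsq_eq, star_mulVec, ← dotProduct_mulVec, mulVec_mulVec]

lemma nsq_iso {X Y : Type} [Fintype X] [DecidableEq X] [Fintype Y] {A : Matrix Y X ℂ}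
    (hA : Aᴴ * A = 1) (φ : X → ℂ) : nsq (A.mulVec φ) = nsq φ := by
  have h := nsq_mul A φ
  rw [hA, one_mulVec, ← nsq_eq] at h
  exact_mod_cast h

lemma nsq_evolve {W : Type} [Fintype W] [DecidableEq W] (M : Mat n)
    (l : List (Mat n → Matrix W W ℂ)) (hl : ∀ q ∈ l, IsQuery n d q) (φ : W → ℂ) :
    nsq (evolve M l φ) = nsq φ := by
  induction l generalizing φ with
  | nil => rfl
  | cons q l ih =>
    rw [evolve, ih (fun q hq => hl q (List.mem_cons_of_mem _ hq)),
      nsq_iso ((hl q List.mem_cons_self).unitary M)]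

lemma sum_apply (R : Round n d D) (M : Mat n) (ψ : D → ℂ) :
    ∑ z, ∑ e, nsq (R.apply M z e ψ) = nsq ψ := by
  obtain ⟨φ, hφ⟩ : ∃ φ, φ = evolve M R.queries (R.prep.mulVec ψ) := ⟨_, rfl⟩
  have h1 : nsq φ = nsq ψ := by rw [hφ, nsq_evolve M _ R.query, nsq_iso R.prep_iso]
  have h2 : ((∑ z, ∑ e, nsq (R.apply M z e ψ) : ℝ) : ℂ) = ((nsq φ : ℝ) : ℂ) := by
    have h3 : ∀ z e, ((nsq (R.apply M z e ψ) : ℝ) : ℂ) =
        star φ ⬝ᵥ (((R.meas z e)ᴴ * R.meas z e).mulVec φ) := by
      intro z e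
      unfold Round.apply
      rw [← hφ, nsq_mul]
    push_cast
    simp only [h3]
    have h4 : ∑ z, ∑ e, star φ ⬝ᵥ (((R.meas z e)ᴴ * R.meas z e).mulVec φ) =
        star φ ⬝ᵥ ((∑ z, ∑ e, (R.meas z e)ᴴ * R.meas z e).mulVec φ) := by
      simp only [sum_mulVec, dotProduct_sum]
    rw [h4, R.meas_sum, one_mulVec, nsq_eq]
  rw [← h1]
  exact_mod_cast h2

lemma prob_nonneg (N : List (Vec n) → Round n d D) (M : Mat n) (zs : List (Vec n)) :
    ∀ (h : List (Vec n)) (ψ : D → ℂ), 0 ≤ prob N M zs h ψ := by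
  induction zs with
  | nil => exact fun h ψ => nsq_nonneg ψ
  | cons z zs ih => exact fun h ψ => sum_nonneg fun e _ => ih _ _

lemma prob_le (N : List (Vec n) → Round n d D) (M : Mat n) (zs : List (Vec n)) :
    ∀ (h : List (Vec n)) (ψ : D → ℂ), prob N M zs h ψ ≤ nsq ψ := by
  induction zs with
  | nil => exact fun h ψ => le_rfl
  | cons z zs ih =>
    intro h ψ
    calc prob N M (z :: zs) h ψ = ∑ e, prob N M zs (h ++ [z]) ((N h).apply M z e ψ) := rfl
      _ ≤ ∑ e, nsq ((N h).apply M z e ψ) := sum_le_sum fun e _ => ih _ _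
      _ ≤ ∑ z, ∑ e, nsq ((N h).apply M z e ψ) :=
          single_le_sum (f := fun z => ∑ e, nsq ((N h).apply M z e ψ))
            (fun z _ => sum_nonneg fun e _ => nsq_nonneg _) (mem_univ z)
      _ = nsq ψ := sum_apply _ _ _

lemma prob_append_bound (N : List (Vec n) → Round n d D) (M : Mat n) (l' : List (Vec n)) (B : ℝ)
    (hB : 0 ≤ B) (l : List (Vec n)) : ∀ (h : List (Vec n)) (ψ : D → ℂ),
      (∀ φ, prob N M l' (h ++ l) φ ≤ B * nsq φ) → prob N M (l ++ l') h ψ ≤ B * nsq ψ := by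
  induction l with
  | nil =>
    intro h ψ hφ
    have := hφ ψ
    rwa [List.append_nil] at this
  | cons z l ih =>
    intro h ψ hφ
    calc prob N M (z :: l ++ l') h ψ =
          ∑ e, prob N M (l ++ l') (h ++ [z]) ((N h).apply M z e ψ) := rfl
      _ ≤ ∑ e, B * nsq ((N h).apply M z e ψ) := by
          refine sum_le_sum fun e _ => ih _ _ fun φ => ?_
          rw [List.append_assoc]
          exact hφ φ
      _ = B * ∑ e, nsq ((N h).apply M z e ψ) := by rw [mul_sum]
      _ ≤ B * ∑ z, ∑ e, nsq ((N h).apply M z e ψ) :=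
          mul_le_mul_of_nonneg_left (single_le_sum (f := fun z => ∑ e, nsq ((N h).apply M z e ψ))
            (fun z _ => sum_nonneg fun e _ => nsq_nonneg _) (mem_univ z)) hB
      _ = B * nsq ψ := by rw [sum_apply]

lemma prob_append_le (N : List (Vec n) → Round n d D) (M : Mat n) (l' : List (Vec n))
    (l : List (Vec n)) : ∀ (h : List (Vec n)) (ψ : D → ℂ),
      prob N M (l ++ l') h ψ ≤ prob N M l h ψ := by
  induction l with
  | nil => exact fun h ψ => prob_le N M l' h ψ
  | cons z l ih => exact fun h ψ => sum_le_sum fun e _ => ih _ _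

lemma cost_append (N : List (Vec n) → Round n d D) (l l' : List (Vec n)) :
    ∀ h : List (Vec n), cost N (l ++ l') h = cost N l h + cost N l' (h ++ l) := by
  induction l with
  | nil =>
    intro h
    rw [List.append_nil, List.nil_append]
    simp [cost]
  | cons z l ih =>
    intro h
    rw [List.cons_append, cost, cost, ih, List.append_assoc, List.singleton_append]
    ring

/-- linearity -/
lemma evolve_sum {W X : Type} [Fintype W] [Fintype X] (M : Mat n)
    (l : List (Mat n → Matrix W W ℂ)) (c : X → ℂ) (ξ : X → W → ℂ) :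
    evolve M l (∑ x, c x • ξ x) = ∑ x, c x • evolve M l (ξ x) := by
  induction l generalizing ξ with
  | nil => rfl
  | cons q l ih =>
    rw [evolve]
    have h1 : (q M).mulVec (∑ x, c x • ξ x) = ∑ x, c x • (q M).mulVec (ξ x) := by
      rw [mulVec_sum]
      simp only [mulVec_smul]
    rw [h1, ih]
    rfl

lemma apply_sum {X : Type} [Fintype X] (R : Round n d D) (M : Mat n) (z : Vec n) (e : R.E)
    (c : X → ℂ) (ξ : X → D → ℂ) :
    R.apply M z e (∑ x, c x • ξ x) = ∑ x, c x • R.apply M z e (ξ x) := by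
  unfold Round.apply
  have h1 : R.prep.mulVec (∑ x, c x • ξ x) = ∑ x, c x • R.prep.mulVec (ξ x) := by
    rw [mulVec_sum]
    simp only [mulVec_smul]
  rw [h1, evolve_sum, mulVec_sum]
  simp only [mulVec_smul]

lemma nsq_cs {X Y : Type} [Fintype X] [Fintype Y] (c : X → ℂ) (ξ : X → Y → ℂ) :
    nsq (∑ x, c x • ξ x) ≤ nsq c * ∑ x, nsq (ξ x) := by
  unfold nsq
  have h1 : ∀ y : Y, ‖(∑ x, c x • ξ x) y‖ ^ 2 ≤ (∑ x, ‖c x‖ ^ 2) * ∑ x, ‖ξ x y‖ ^ 2 := by
    intro y
    have h2 : ‖(∑ x, c x • ξ x) y‖ ≤ ∑ x, ‖c x‖ * ‖ξ x y‖ := by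
      rw [Finset.sum_apply]
      refine (norm_sum_le _ _).trans (le_of_eq (sum_congr rfl fun x _ => ?_))
      rw [Pi.smul_apply, smul_eq_mul, norm_mul]
    calc ‖(∑ x, c x • ξ x) y‖ ^ 2 ≤ (∑ x, ‖c x‖ * ‖ξ x y‖) ^ 2 :=
          pow_le_pow_left₀ (norm_nonneg _) h2 2
      _ ≤ _ := sum_mul_sq_le_sq_mul_sq _ _ _
  refine (sum_le_sum fun y _ => h1 y).trans (le_of_eq ?_)
  rw [← mul_sum, sum_comm]

lemma prob_cs {X : Type} [Fintype X] (N : List (Vec n) → Round n d D) (M : Mat n) (c : X → ℂ)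
    (zs : List (Vec n)) : ∀ (h : List (Vec n)) (ξ : X → D → ℂ),
      prob N M zs h (∑ x, c x • ξ x) ≤ nsq c * ∑ x, prob N M zs h (ξ x) := by
  induction zs with
  | nil => exact fun h ξ => nsq_cs c ξ
  | cons z zs ih =>
    intro h ξ
    calc prob N M (z :: zs) h (∑ x, c x • ξ x) =
          ∑ e, prob N M zs (h ++ [z]) ((N h).apply M z e (∑ x, c x • ξ x)) := rfl
      _ = ∑ e, prob N M zs (h ++ [z]) (∑ x, c x • (N h).apply M z e (ξ x)) := by
          simp only [apply_sum]
      _ ≤ ∑ e, nsq c * ∑ x, prob N M zs (h ++ [z]) ((N h).apply M z e (ξ x)) :=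
          sum_le_sum fun e _ => ih _ _
      _ = nsq c * ∑ x, ∑ e, prob N M zs (h ++ [z]) ((N h).apply M z e (ξ x)) := by
          rw [← mul_sum, sum_comm]
      _ = _ := rfl

/-- the sum of the probabilities for all basis states of the memory -/
noncomputable def tot (N : List (Vec n) → Round n d D) (M : Mat n) (zs h : List (Vec n)) : ℝ :=
  ∑ x : D, prob N M zs h (Pi.single x 1)

lemma tot_nonneg (N : List (Vec n) → Round n d D) (M : Mat n) (zs h : List (Vec n)) :
    0 ≤ tot N M zs h := sum_nonneg fun _ _ => prob_nonneg _ _ _ _ _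

lemma prob_le_tot (N : List (Vec n) → Round n d D) (M : Mat n) (zs h : List (Vec n))
    (φ : D → ℂ) : prob N M zs h φ ≤ tot N M zs h * nsq φ := by
  have h1 : φ = ∑ x : D, φ x • (Pi.single x 1 : D → ℂ) := by
    funext y
    rw [Finset.sum_apply, sum_eq_single y]
    · simp
    · intro b _ hb
      rw [Pi.smul_apply, Pi.single_eq_of_ne hb.symm, smul_zero]
    · intro h
      exact absurd (mem_univ _) h
  have h2 := prob_cs N M φ zs h fun x => (Pi.single x 1 : D → ℂ)
  rw [← h1] at h2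
  rw [mul_comm]
  exact h2

/-- the probabilities of all answers sum up to one -/
lemma sum_prob (N : List (Vec n) → Round n d D) (M : Mat n) (m : ℕ) :
    ∀ (h : List (Vec n)) (ψ : D → ℂ),
      ∑ z : Fin m → Vec n, prob N M (List.ofFn z) h ψ = nsq ψ := by
  induction m with
  | zero =>
    intro h ψ
    simp [prob]
  | succ m ih =>
    intro h ψ
    rw [← (Fin.consEquiv fun _ : Fin (m + 1) => Vec n).sum_comp, Fintype.sum_prod_type]
    have h1 : ∀ (z : Vec n) (zs : Fin m → Vec n),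
        prob N M (List.ofFn ((Fin.consEquiv fun _ : Fin (m + 1) => Vec n) (z, zs))) h ψ =
        ∑ e, prob N M (List.ofFn zs) (h ++ [z]) ((N h).apply M z e ψ) := by
      intro z zs
      have h2 : List.ofFn ((Fin.consEquiv fun _ : Fin (m + 1) => Vec n) (z, zs)) =
          z :: List.ofFn zs := by
        rw [List.ofFn_succ]
        simp [Fin.consEquiv]
      rw [h2]
      rfl
    simp only [h1]
    have h3 : ∀ z : Vec n, ∑ zs : Fin m → Vec n,
        ∑ e, prob N M (List.ofFn zs) (h ++ [z]) ((N h).apply M z e ψ) =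
        ∑ e, nsq ((N h).apply M z e ψ) := by
      intro z
      rw [sum_comm]
      exact sum_congr rfl fun e _ => ih _ _
    simp only [h3]
    exact sum_apply _ _ _

lemma nsq_single (x : D) : nsq (Pi.single x 1 : D → ℂ) = 1 := by
  unfold nsq
  rw [sum_eq_single x]
  · simp
  · intro b _ hb
    rw [Pi.single_eq_of_ne hb]
    simp
  · intro h
    exact absurd (mem_univ _) h

lemma sum_tot (N : List (Vec n) → Round n d D) (M : Mat n) (m : ℕ) (h : List (Vec n)) :
    ∑ z : Fin m → Vec n, tot N M (List.ofFn z) h = Fintype.card D := by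
  unfold tot
  rw [sum_comm]
  simp only [sum_prob, nsq_single, sum_const, card_univ, nsmul_eq_mul, mul_one]

/-! ### Degrees -/

lemma deg_mulVec {X Y : Type} [Fintype X] {a b : ℕ} {A : Mat n → Matrix Y X ℂ}
    {φ : Mat n → X → ℂ} (hA : ∀ y x, (fun M => A M y x) ∈ DegLE n a)
    (hφ : ∀ x, (fun M => φ M x) ∈ DegLE n b) (y : Y) :
    (fun M => (A M).mulVec (φ M) y) ∈ DegLE n (a + b) := by
  have h1 : (fun M => (A M).mulVec (φ M) y) = ∑ x, (fun M => A M y x) * fun M => φ M x := by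
    funext M
    rw [Finset.sum_apply]
    rfl
  rw [h1]
  exact Submodule.sum_mem _ fun x _ => deg_mul (hA y x) (hφ x)

lemma deg_evolve {W : Type} [Fintype W] [DecidableEq W] (l : List (Mat n → Matrix W W ℂ))
    (hl : ∀ q ∈ l, IsQuery n d q) : ∀ {k : ℕ} {φ : Mat n → W → ℂ},
      (∀ x, (fun M => φ M x) ∈ DegLE n k) → ∀ x,
      (fun M => evolve M l (φ M) x) ∈ DegLE n (k + d * l.length) := by
  induction l with
  | nil =>
    intro k φ hφ x
    simpa [evolve] using hφ x
  | cons q l ih =>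
    intro k φ hφ x
    have h1 := ih (fun q hq => hl q (List.mem_cons_of_mem _ hq))
      (fun x => deg_mulVec (hl q List.mem_cons_self).degree hφ x) x
    refine deg_mono (le_of_eq ?_) h1
    rw [List.length_cons]
    ring

lemma deg_apply (R : Round n d D) (z : Vec n) (e : R.E) {k : ℕ} {ψ : Mat n → D → ℂ}
    (hψ : ∀ x, (fun M => ψ M x) ∈ DegLE n k) (x : D) :
    (fun M => R.apply M z e (ψ M) x) ∈ DegLE n (k + d * R.queries.length) := by
  have h1 : ∀ x, (fun M => R.prep.mulVec (ψ M) x) ∈ DegLE n k := by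
    intro x
    have := deg_mulVec (a := 0) (A := fun _ => R.prep) (fun y x => deg_const _ 0) hψ x
    rwa [zero_add] at this
  have h2 := deg_evolve R.queries R.query h1
  have h3 := deg_mulVec (a := 0) (A := fun _ => R.meas z e) (fun y x => deg_const _ 0) h2 x
  rwa [zero_add] at h3

lemma deg_nsq {X : Type} [Fintype X] {k : ℕ} {φ : Mat n → X → ℂ}
    (hφ : ∀ x, (fun M => φ M x) ∈ DegLE n k) :
    (fun M => ((nsq (φ M) : ℝ) : ℂ)) ∈ DegLE n (2 * k) := by
  have h1 : (fun M => ((nsq (φ M) : ℝ) : ℂ)) =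
      ∑ x, (fun M => star (φ M x)) * fun M => φ M x := by
    funext M
    rw [nsq_eq, Finset.sum_apply]
    rfl
  rw [h1, two_mul]
  exact Submodule.sum_mem _ fun x _ => deg_mul (deg_star (hφ x)) (hφ x)

lemma deg_prob (N : List (Vec n) → Round n d D) (zs : List (Vec n)) :
    ∀ (h : List (Vec n)) {k : ℕ} {ψ : Mat n → D → ℂ}, (∀ x, (fun M => ψ M x) ∈ DegLE n k) →
      (fun M => ((prob N M zs h (ψ M) : ℝ) : ℂ)) ∈ DegLE n (2 * (k + d * cost N zs h)) := by
  induction zs with
  | nil =>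
    intro h k ψ hψ
    simpa [prob, cost] using deg_nsq hψ
  | cons z zs ih =>
    intro h k ψ hψ
    have h1 : (fun M => ((prob N M (z :: zs) h (ψ M) : ℝ) : ℂ)) =
        ∑ e, fun M => ((prob N M zs (h ++ [z]) ((N h).apply M z e (ψ M)) : ℝ) : ℂ) := by
      funext M
      rw [Finset.sum_apply, prob]
      push_cast
      rfl
    rw [h1]
    refine Submodule.sum_mem _ fun e _ => ?_
    refine deg_mono (le_of_eq ?_) (ih (h ++ [z]) fun x => deg_apply (N h) z e hψ x)
    rw [cost]
    ring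

lemma deg_tot (N : List (Vec n) → Round n d D) (zs h : List (Vec n)) :
    (fun M => ((tot N M zs h : ℝ) : ℂ)) ∈ DegLE n (2 * (d * cost N zs h)) := by
  have h1 : (fun M => ((tot N M zs h : ℝ) : ℂ)) =
      ∑ x : D, fun M => ((prob N M zs h (Pi.single x 1) : ℝ) : ℂ) := by
    funext M
    rw [Finset.sum_apply]
    unfold tot
    push_cast
    rfl
  rw [h1]
  refine Submodule.sum_mem _ fun x _ => ?_
  have h2 := deg_prob N zs h (k := 0) (ψ := fun _ => (Pi.single x 1 : D → ℂ))
    fun y => deg_const _ 0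
  rwa [zero_add] at h2

end Pool.Agent.H85Q
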