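import Pool.Agent.H85Q.Lower

/-!
H85Q (helper85, MP_0f1f76_lc): reading words is a query; a matching algorithm.
-/

set_option autoImplicit false

namespace Pool.Agent.H85Q

open Finset Matrix

variable {n d : ℕ}

lemma permMat_apply {W : Type} [DecidableEq W] (σ : Equiv.Perm W) (x y : W) :
    permMat σ x y = if x = σ y then 1 else 0 := rfl

lemma permMat_unitary {W : Type} [Fintype W] [DecidableEq W] (σ : Equiv.Perm W) :
    (permMat σ)ᴴ * permMat σ = 1 := by
  ext x y
  rw [Matrix.mul_apply, Matrix.one_apply]
  simp only [conjTranspose_apply, permMat_apply]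
  rw [sum_eq_single (σ x)]
  · rw [if_pos rfl, star_one, one_mul]
    by_cases h : x = y
    · rw [if_pos h, if_pos (by rw [h])]
    · rw [if_neg h, if_neg fun h' => h (σ.injective h')]
  · intro b _ hb
    rw [if_neg hb, star_zero, zero_mul]
  · intro h
    exact absurd (mem_univ _) h

/-- permutations of the basis such that the image of every basis state depends on at most `d`
entries of the matrix are queries -/
lemma perm_query {W : Type} [Fintype W] [DecidableEq W] (σ : Mat n → Equiv.Perm W)
    (h : ∀ y, ∃ R : Finset (Fin n × Fin n), R.card ≤ d ∧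
      ∀ M N : Mat n, (∀ p ∈ R, M p.1 p.2 = N p.1 p.2) → σ M y = σ N y) :
    IsQuery n d fun M => permMat (σ M) := by
  refine ⟨fun M => permMat_unitary _, fun x y => ?_⟩
  obtain ⟨R, hR, h1⟩ := h y
  refine deg_of_depends R hR fun M N hMN => ?_
  rw [permMat_apply, permMat_apply, h1 M N hMN]

/-- reading a word of any length which depends on at most `d` entries is a query -/
lemma read_query {A K X : Type} [Fintype A] [DecidableEq A] [Fintype K] [DecidableEq K]
    [AddGroup K] [Fintype X] [DecidableEq X] (c : A → Mat n → K)
    (h : ∀ a, ∃ R : Finset (Fin n × Fin n), R.card ≤ d ∧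
      ∀ M N : Mat n, (∀ p ∈ R, M p.1 p.2 = N p.1 p.2) → c a M = c a N) :
    IsQuery n d fun M => permMat (readPerm (X := X) c M) := by
  refine perm_query _ fun y => ?_
  obtain ⟨R, hR, h1⟩ := h y.1
  refine ⟨R, hR, fun M N hMN => ?_⟩
  show (y.1, y.2.1 + c y.1 M, y.2.2) = (y.1, y.2.1 + c y.1 N, y.2.2)
  rw [h1 M N hMN]

/-! ### The algorithm -/

lemma permMat_single {W : Type} [Fintype W] [DecidableEq W] (σ : Equiv.Perm W) (y : W) :
    (permMat σ).mulVec (Pi.single y 1) = (Pi.single (σ y) 1 : W → ℂ) := by
  funext x
  rw [mulVec_single_one, Matrix.col_apply, permMat_apply]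
  by_cases h : x = σ y
  · rw [if_pos h, h, Pi.single_eq_same]
  · rw [if_neg h, Pi.single_eq_of_ne h]

/-- the part number `k` of the matrix: `d` entries -/
def part (d k : ℕ) (M : Mat n) : Mat n :=
  fun i j => if (finProdFinEquiv (i, j) : ℕ) / d = k then M i j else 0

lemma sum_part (d : ℕ) (M : Mat n) : ∑ k ∈ range (n * n / d + 1), part d k M = M := by
  funext i j
  rw [Finset.sum_apply, Finset.sum_apply]
  unfold part
  rw [sum_ite_eq, if_pos]
  rw [mem_range, Nat.lt_succ_iff]
  exact Nat.div_le_div_right (finProdFinEquiv (i, j)).isLt.le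

/-- reading the part number `k` -/
def partPerm (X : Type) (d k : ℕ) (M : Mat n) : Equiv.Perm (Mat n × X) :=
  (Equiv.addRight (part d k M)).prodCongr (Equiv.refl X)

lemma part_query (X : Type) [Fintype X] [DecidableEq X] (hd : 1 ≤ d) (k : ℕ) :
    IsQuery n d fun M => permMat (partPerm X d k M) := by
  refine perm_query _ fun y => ?_
  refine ⟨univ.filter fun p : Fin n × Fin n => (finProdFinEquiv p : ℕ) / d = k, ?_, ?_⟩
  · have h1 : (univ.filter fun p : Fin n × Fin n => (finProdFinEquiv p : ℕ) / d = k).card ≤
        (Finset.Ico (d * k) (d * k + d)).card := by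
      refine card_le_card_of_injOn (fun p => (finProdFinEquiv p : ℕ)) ?_ ?_
      · intro p hp
        have h2 := (mem_filter.1 hp).2
        have h3 := Nat.div_add_mod (finProdFinEquiv p : ℕ) d
        have h4 := Nat.mod_lt (finProdFinEquiv p : ℕ) (show 0 < d by omega)
        rw [h2] at h3
        simp only [coe_Ico, Set.mem_Ico]
        constructor
        · omega
        · omega
      · intro p _ q _ hpq
        exact finProdFinEquiv.injective (Fin.ext hpq)
    simpa using h1
  · intro M N hMN
    have h1 : part d k M = part d k N := by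
      funext i j
      unfold part
      split_ifs with h
      · exact hMN (i, j) (mem_filter.2 ⟨mem_univ _, h⟩)
      · rfl
    unfold partPerm
    rw [h1]

/-- the vector number `i` -/
def vec (v : Fin n → Vec n) (i : ℕ) : Vec n := if h : i < n then v ⟨i, h⟩ else 0

/-- the products of a matrix with `p` vectors, from the vector number `i` on -/
def table (p : ℕ) (v : Fin n → Vec n) (i : ℕ) (M : Mat n) : Fin p → Vec n :=
  fun j => mv M (vec v (i + j))

noncomputable def prepMat (n p : ℕ) : Matrix (Mat n × Mem n p) (Mem n p) ℂ :=
  Matrix.of fun x y => if x = (0, y) then 1 else 0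

lemma prepMat_apply (p : ℕ) (x : Mat n × Mem n p) (y : Mem n p) :
    prepMat n p x y = if x = (0, y) then 1 else 0 := rfl

lemma prepMat_iso (n p : ℕ) : (prepMat n p)ᴴ * prepMat n p = 1 := by
  ext x y
  rw [Matrix.mul_apply, Matrix.one_apply]
  simp only [conjTranspose_apply, prepMat_apply]
  rw [sum_eq_single (0, x)]
  · rw [if_pos rfl, star_one, one_mul]
    by_cases h : x = y
    · rw [if_pos h, if_pos (by rw [h])]
    · rw [if_neg h, if_neg fun h' => h (Prod.ext_iff.1 h').2]
  · intro b _ hb
    rw [if_neg hb, star_zero, zero_mul]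
  · intro h
    exact absurd (mem_univ _) h

noncomputable def measMat (p : ℕ) (v : Fin n → Vec n) (i : ℕ) (z : Vec n)
    (e : Mat n × Mem n p) : Matrix (Mem n p) (Mat n × Mem n p) ℂ :=
  Matrix.of fun y x => if x = e ∧ z = mv e.1 (vec v i) ∧ y = table p v i e.1 then 1 else 0

lemma measMat_apply (p : ℕ) (v : Fin n → Vec n) (i : ℕ) (z : Vec n)
    (e : Mat n × Mem n p) (y : Mem n p) (x : Mat n × Mem n p) :
    measMat p v i z e y x =
      if x = e ∧ z = mv e.1 (vec v i) ∧ y = table p v i e.1 then 1 else 0 := rfl

lemma measMat_sum (p : ℕ) (v : Fin n → Vec n) (i : ℕ) :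
    ∑ z, ∑ e, (measMat p v i z e)ᴴ * measMat p v i z e = 1 := by
  ext x y
  have h1 : ∀ (z : Vec n) (e : Mat n × Mem n p),
      ((measMat p v i z e)ᴴ * measMat p v i z e) x y =
      if z = mv e.1 (vec v i) then (if e = x then (if x = y then 1 else 0) else 0) else 0 := by
    intro z e
    rw [Matrix.mul_apply]
    simp only [conjTranspose_apply, measMat_apply]
    rw [sum_eq_single (table p v i e.1)]
    · by_cases hz : z = mv e.1 (vec v i)
      · by_cases hx : x = e
        · subst hx
          by_cases hy : y = x
          · subst hy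
            simp [hz]
          · simp [hy, Ne.symm hy]
        · simp [hx, Ne.symm hx]
      · simp [hz]
    · intro b _ hb
      simp [hb]
    · intro h
      exact absurd (mem_univ _) h
  rw [Matrix.sum_apply]
  simp only [Matrix.sum_apply, h1, Matrix.one_apply]
  rw [sum_comm]
  have h2 : ∀ e : Mat n × Mem n p, ∑ z : Vec n, (if z = mv e.1 (vec v i) then
      (if e = x then (if x = y then (1 : ℂ) else 0) else 0) else 0) =
      if e = x then (if x = y then 1 else 0) else 0 := by
    intro e
    rw [sum_ite_eq', if_pos (mem_univ _)]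
  simp only [h2]
  rw [sum_ite_eq', if_pos (mem_univ _)]

/-- in every `p`-th round the matrix is read, and the products with the next `p` vectors are
stored -/
noncomputable def readRound (hd : 1 ≤ d) (p : ℕ) (v : Fin n → Vec n) (i : ℕ) :
    Round n d (Mem n p) where
  W := Mat n × Mem n p
  E := Mat n × Mem n p
  prep := prepMat n p
  prep_iso := prepMat_iso n p
  queries := (List.range (n * n / d + 1)).map fun k M => permMat (partPerm (Mem n p) d k M)
  query := by
    intro q hq
    obtain ⟨k, -, rfl⟩ := List.mem_map.1 hq
    exact part_query (Mem n p) hd k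
  meas := measMat p v i
  meas_sum := measMat_sum p v i

noncomputable def lookMat {p : ℕ} (r : Fin p) (z : Vec n) : Matrix (Mem n p) (Mem n p) ℂ :=
  Matrix.of fun y x => if x = y ∧ x r = z then 1 else 0

lemma lookMat_apply {p : ℕ} (r : Fin p) (z : Vec n) (y x : Mem n p) :
    lookMat r z y x = if x = y ∧ x r = z then 1 else 0 := rfl

lemma lookMat_sum {p : ℕ} (r : Fin p) :
    ∑ z : Vec n, ∑ _e : Unit, (lookMat r z)ᴴ * lookMat r z = 1 := by
  ext x y
  have h1 : ∀ z : Vec n, ((lookMat r z)ᴴ * lookMat r z) x y =
      if z = x r then (if x = y then 1 else 0) else 0 := by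
    intro z
    rw [Matrix.mul_apply]
    simp only [conjTranspose_apply, lookMat_apply]
    rw [sum_eq_single x]
    · by_cases hz : x r = z
      · by_cases hy : x = y
        · subst hy
          simp [hz]
        · simp [hy, Ne.symm hy]
      · simp [hz, Ne.symm hz]
    · intro b _ hb
      simp [Ne.symm hb]
    · intro h
      exact absurd (mem_univ _) h
  rw [Matrix.sum_apply]
  simp only [Finset.univ_unique, sum_singleton, h1, Matrix.one_apply]
  rw [sum_ite_eq', if_pos (mem_univ _)]

/-- in the other rounds the answer is taken from the memory -/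
noncomputable def lookRound (n d : ℕ) {p : ℕ} (r : Fin p) : Round n d (Mem n p) where
  W := Mem n p
  E := Unit
  prep := 1
  prep_iso := by simp
  queries := []
  query := by simp
  meas := fun z _ => lookMat r z
  meas_sum := lookMat_sum r

lemma prob_zero {D : Type} [Fintype D] [DecidableEq D] (N : List (Vec n) → Round n d D)
    (M : Mat n) (zs h : List (Vec n)) : prob N M zs h (0 : D → ℂ) = 0 := by
  have h1 := prob_le N M zs h (0 : D → ℂ)
  have h2 := prob_nonneg N M zs h (0 : D → ℂ)
  have h3 : nsq (0 : D → ℂ) = 0 := by
    unfold nsq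
    simp
  linarith

lemma evolve_parts (X : Type) [Fintype X] [DecidableEq X] (M : Mat n) (l : List ℕ) :
    ∀ (N : Mat n) (x : X), evolve M (l.map fun k M => permMat (partPerm X d k M))
      (Pi.single (N, x) 1) = (Pi.single (N + (l.map fun k => part d k M).sum, x) 1 :
        Mat n × X → ℂ) := by
  induction l with
  | nil =>
    intro N x
    simp [evolve]
  | cons k l ih =>
    intro N x
    rw [List.map_cons, evolve, permMat_single]
    have h1 : partPerm X d k M (N, x) = (N + part d k M, x) := rfl
    rw [h1, ih, List.map_cons, List.sum_cons, add_assoc]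

lemma list_sum_range {α : Type} [AddCommMonoid α] (f : ℕ → α) (K : ℕ) :
    ((List.range K).map f).sum = ∑ k ∈ range K, f k := by
  induction K with
  | zero => simp
  | succ K ih =>
    rw [List.range_succ, List.map_append, List.sum_append, ih, sum_range_succ]
    simp

/-- the round number `i` -/
noncomputable def nextAt (hd : 1 ≤ d) {p : ℕ} (hp : 0 < p) (v : Fin n → Vec n)
    (i : ℕ) : Round n d (Mem n p) :=
  if i % p = 0 then readRound hd p v i else lookRound n d ⟨i % p, Nat.mod_lt _ hp⟩

/-- the algorithm, with room for `p` vectors -/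
noncomputable def nextRound (hd : 1 ≤ d) {p : ℕ} (hp : 0 < p) (v : Fin n → Vec n)
    (h : List (Vec n)) : Round n d (Mem n p) := nextAt hd hp v h.length

lemma single_eq_of {X : Type} [DecidableEq X] (f : X → ℂ) (x : X) (h1 : f x = 1)
    (h2 : ∀ y, y ≠ x → f y = 0) : f = Pi.single x 1 := by
  funext y
  by_cases h : y = x
  · rw [h, h1, Pi.single_eq_same]
  · rw [h2 y h, Pi.single_eq_of_ne h]

lemma read_apply (hd : 1 ≤ d) (p : ℕ) (v : Fin n → Vec n) (i : ℕ) (M : Mat n) (x : Mem n p)
    (e : Mat n × Mem n p) :
    (readRound hd p v i).apply M (mv M (vec v i)) e (Pi.single x 1) =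
      if e = (M, x) then (Pi.single (table p v i M) 1 : Mem n p → ℂ) else 0 := by
  unfold Round.apply
  have h1 : (readRound hd p v i).prep.mulVec (Pi.single x 1) =
      (Pi.single ((0 : Mat n), x) 1 : Mat n × Mem n p → ℂ) := by
    show (prepMat n p).mulVec (Pi.single x 1) = _
    rw [mulVec_single_one]
    refine single_eq_of _ _ ?_ ?_
    · rw [Matrix.col_apply, prepMat_apply, if_pos rfl]
    · intro y hy
      rw [Matrix.col_apply, prepMat_apply, if_neg hy]
  rw [h1]
  have h2 : evolve M (readRound hd p v i).queries
      (Pi.single ((0 : Mat n), x) 1 : Mat n × Mem n p → ℂ) = Pi.single (M, x) 1 := by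
    have h3 := evolve_parts (d := d) (Mem n p) M (List.range (n * n / d + 1)) 0 x
    rw [list_sum_range, sum_part, zero_add] at h3
    exact h3
  rw [h2]
  show (measMat p v i (mv M (vec v i)) e).mulVec (Pi.single (M, x) 1) = _
  rw [mulVec_single_one]
  split_ifs with he
  · refine single_eq_of _ _ ?_ ?_
    · rw [Matrix.col_apply, measMat_apply, he, if_pos ⟨rfl, rfl, rfl⟩]
    · intro y hy
      rw [Matrix.col_apply, measMat_apply, he, if_neg fun h => hy h.2.2]
  · funext y
    rw [Matrix.col_apply, measMat_apply, if_neg fun h => he h.1.symm]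
    rfl

lemma look_apply {p : ℕ} (r : Fin p) (M : Mat n) (x : Mem n p) (e : Unit) :
    (lookRound n d r).apply M (x r) e (Pi.single x 1) = (Pi.single x 1 : Mem n p → ℂ) := by
  unfold Round.apply
  show (lookMat r (x r)).mulVec ((1 : Matrix (Mem n p) (Mem n p) ℂ).mulVec (Pi.single x 1)) = _
  rw [one_mulVec, mulVec_single_one]
  refine single_eq_of _ _ ?_ ?_
  · rw [Matrix.col_apply, lookMat_apply, if_pos ⟨rfl, rfl⟩]
  · intro y hy
    rw [Matrix.col_apply, lookMat_apply, if_neg fun h => hy h.1.symm]

lemma ans_length (M : Mat n) (v : Fin n → Vec n) : (ans M v).length = n := by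
  simp [ans]

lemma drop_step (M : Mat n) (v : Fin n → Vec n) {i : ℕ} (hi : i < n) :
    (ans M v).drop i = mv M (vec v i) :: (ans M v).drop (i + 1) := by
  rw [List.drop_eq_getElem_cons (by rw [ans_length]; exact hi)]
  congr 1
  simp [ans, vec, hi]

lemma take_step (M : Mat n) (v : Fin n → Vec n) {i : ℕ} (hi : i < n) :
    (ans M v).take i ++ [mv M (vec v i)] = (ans M v).take (i + 1) := by
  rw [List.take_add_one]
  congr 1
  simp [ans, vec, hi]

lemma run_right (hd : 1 ≤ d) {p : ℕ} (hp : 0 < p) (v : Fin n → Vec n) (M : Mat n) (k : ℕ) :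
    ∀ (i : ℕ) (x : Mem n p), i + k = n → (i % p = 0 ∨ x = table p v (p * (i / p)) M) →
      prob (nextRound hd hp v) M ((ans M v).drop i) ((ans M v).take i) (Pi.single x 1) = 1 := by
  induction k with
  | zero =>
    intro i x hi _
    have h1 : (ans M v).drop i = [] := by
      rw [List.drop_eq_nil_iff, ans_length]
      omega
    rw [h1, prob, nsq_single]
  | succ k ih =>
    intro i x hi hx
    have hin : i < n := by omega
    have hlen : ((ans M v).take i).length = i := by
      rw [List.length_take, ans_length]
      omega
    rw [drop_step M v hin]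
    by_cases hr : i % p = 0
    · have hN : nextRound hd hp v ((ans M v).take i) = readRound hd p v i := by
        unfold nextRound
        rw [hlen]
        unfold nextAt
        rw [if_pos hr]
      have h2 : ∀ y : Mem n p, y = table p v i M →
          prob (nextRound hd hp v) M ((ans M v).drop (i + 1)) ((ans M v).take (i + 1))
            (Pi.single y 1) = 1 := by
        intro y hy
        refine ih (i + 1) y (by omega) ?_
        by_cases h3 : (i + 1) % p = 0
        · exact Or.inl h3
        · refine Or.inr ?_
          have h4 : (i + 1) / p = i / p := by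
            rw [Nat.succ_div_of_not_dvd fun h => h3 (Nat.mod_eq_zero_of_dvd h)]
          have h5 : p * (i / p) = i := by
            have := Nat.div_add_mod i p
            omega
          rw [h4, h5]
          exact hy
      have h6 : prob (nextRound hd hp v) M (mv M (vec v i) :: (ans M v).drop (i + 1))
          ((ans M v).take i) (Pi.single x 1) = ∑ e : Mat n × Mem n p,
            prob (nextRound hd hp v) M ((ans M v).drop (i + 1)) ((ans M v).take (i + 1))
              (if e = (M, x) then (Pi.single (table p v i M) 1 : Mem n p → ℂ) else 0) := by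
        rw [prob, take_step M v hin, hN]
        exact sum_congr rfl fun e _ => congrArg _ (read_apply hd p v i M x e)
      rw [h6, sum_eq_single (M, x)]
      · rw [if_pos rfl]
        exact h2 _ rfl
      · intro e _ he
        rw [if_neg he, prob_zero]
      · intro h
        exact absurd (mem_univ _) h
    · have hN : nextRound hd hp v ((ans M v).take i) =
          lookRound n d ⟨i % p, Nat.mod_lt _ hp⟩ := by
        unfold nextRound
        rw [hlen]
        unfold nextAt
        rw [if_neg hr]
      have hx' := hx.resolve_left hr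
      have h7 : x ⟨i % p, Nat.mod_lt _ hp⟩ = mv M (vec v i) := by
        rw [hx']
        unfold table
        have h8 : p * (i / p) + i % p = i := Nat.div_add_mod i p
        show mv M (vec v (p * (i / p) + i % p)) = _
        rw [h8]
      have h6 : prob (nextRound hd hp v) M (mv M (vec v i) :: (ans M v).drop (i + 1))
          ((ans M v).take i) (Pi.single x 1) = ∑ _e : Unit,
            prob (nextRound hd hp v) M ((ans M v).drop (i + 1)) ((ans M v).take (i + 1))
              (Pi.single x 1) := by
        rw [prob, take_step M v hin, hN]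
        rw [← h7]
        exact sum_congr rfl fun e _ => congrArg _ (look_apply _ M x e)
      rw [h6, Finset.univ_unique, sum_singleton]
      refine ih (i + 1) x (by omega) ?_
      by_cases h3 : (i + 1) % p = 0
      · exact Or.inl h3
      · refine Or.inr ?_
        have h4 : (i + 1) / p = i / p := by
          rw [Nat.succ_div_of_not_dvd fun h => h3 (Nat.mod_eq_zero_of_dvd h)]
        rw [h4]
        exact hx'

lemma run_cost (hd : 1 ≤ d) {p : ℕ} (hp : 0 < p) (v : Fin n → Vec n) (M : Mat n) (k : ℕ) :
    ∀ i : ℕ, i + k = n → cost (nextRound hd hp v) ((ans M v).drop i) ((ans M v).take i) =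
      ((Finset.Ico i n).filter fun j => j % p = 0).card * (n * n / d + 1) := by
  induction k with
  | zero =>
    intro i hi
    have h1 : (ans M v).drop i = [] := by
      rw [List.drop_eq_nil_iff, ans_length]
      omega
    rw [h1, cost, show i = n by omega]
    simp
  | succ k ih =>
    intro i hi
    have hin : i < n := by omega
    have hlen : ((ans M v).take i).length = i := by
      rw [List.length_take, ans_length]
      omega
    rw [drop_step M v hin, cost, take_step M v hin, ih (i + 1) (by omega)]
    have h1 : Finset.Ico i n = insert i (Finset.Ico (i + 1) n) := by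
      ext j
      simp only [mem_insert, Finset.mem_Ico]
      omega
    rw [h1, filter_insert]
    by_cases hr : i % p = 0
    · have hN : nextRound hd hp v ((ans M v).take i) = readRound hd p v i := by
        unfold nextRound
        rw [hlen]
        unfold nextAt
        rw [if_pos hr]
      rw [if_pos hr, card_insert_of_notMem (by simp), hN]
      have h2 : (readRound hd p v i).queries.length = n * n / d + 1 := by
        unfold readRound
        simp
      rw [h2]
      ring
    · have hN : nextRound hd hp v ((ans M v).take i) =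
          lookRound n d ⟨i % p, Nat.mod_lt _ hp⟩ := by
        unfold nextRound
        rw [hlen]
        unfold nextAt
        rw [if_neg hr]
      rw [if_neg hr, hN]
      have h2 : (lookRound n d (⟨i % p, Nat.mod_lt _ hp⟩ : Fin p)).queries.length = 0 := rfl
      rw [h2, zero_add]

/-- **The upper bound.** -/
theorem upper {n d p : ℕ} (hd : 1 ≤ d) (hp : 1 ≤ p) : ∃ A : Alg n d (Mem n p),
    ∀ M v, A.success M v = 1 ∧ A.queries M v ≤ (n / p + 1) * (n * n / d + 1) := by
  refine ⟨⟨fun _ _ => Pi.single 0 1, fun _ _ => nsq_single _, nextRound hd hp⟩, fun M v =>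
    ⟨?_, ?_⟩⟩
  · have h := run_right hd hp v M n 0 0 (by omega) (Or.inl (Nat.zero_mod p))
    rw [List.drop_zero, List.take_zero] at h
    exact h
  · have h := run_cost hd hp v M n 0 (by omega)
    rw [List.drop_zero, List.take_zero] at h
    unfold Alg.queries
    dsimp only
    rw [h]
    refine Nat.mul_le_mul_right _ ?_
    have h1 : ((Finset.Ico 0 n).filter fun j => j % p = 0).card ≤ (range (n / p + 1)).card := by
      refine card_le_card_of_injOn (fun j => j / p) ?_ ?_
      · intro j hj
        have h2 := (mem_filter.1 hj).1
        rw [Finset.mem_Ico] at h2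
        simp only [coe_range, Set.mem_Iio]
        exact Nat.lt_succ_of_le (Nat.div_le_div_right h2.2.le)
      · intro j hj k hk hjk
        have h2 := (mem_filter.1 hj).2
        have h3 := (mem_filter.1 hk).2
        have h4 := Nat.div_add_mod j p
        have h5 := Nat.div_add_mod k p
        have h6 : j / p = k / p := hjk
        rw [h6] at h4
        omega
    simpa using h1

end Pool.Agent.H85Q
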